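import Pool.Agent.MP_5045a8_al.UN.San

/-! An equivariant family of groups of integral affine maps of the plane. -/

namespace Pool.Agent.MP_5045a8_al.UN

open Matrix
open scoped MatrixGroups

/-- Integral affine maps of the plane with linear part of determinant one. -/
@[ext] structure Af where
  A : L2
  t : V2

instance : Mul Af := ⟨fun a b => ⟨a.A * b.A, a.A • b.t + a.t⟩⟩
instance : One Af := ⟨⟨1, 0⟩⟩
instance : Inv Af := ⟨fun a => ⟨a.A⁻¹, -(a.A⁻¹ • a.t)⟩⟩

theorem Af.mul_A (a b : Af) : (a * b).A = a.A * b.A := rfl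
theorem Af.mul_t (a b : Af) : (a * b).t = a.A • b.t + a.t := rfl
theorem Af.one_A : (1 : Af).A = 1 := rfl
theorem Af.one_t : (1 : Af).t = 0 := rfl
theorem Af.inv_A (a : Af) : a⁻¹.A = a.A⁻¹ := rfl
theorem Af.inv_t (a : Af) : a⁻¹.t = -(a.A⁻¹ • a.t) := rfl

instance : Group Af := Group.ofLeftAxioms
  (fun a b c => Af.ext (mul_assoc _ _ _) (by
    simp only [Af.mul_A, Af.mul_t, smul_add, mul_smul, add_assoc]))
  (fun a => Af.ext (one_mul _) (by simp only [Af.mul_t, Af.one_A, Af.one_t, one_smul, add_zero]))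
  (fun a => Af.ext (inv_mul_cancel _) (by
    simp only [Af.mul_t, Af.inv_A, Af.inv_t, Af.one_t, add_neg_cancel]))

instance : Countable L2 := inferInstanceAs (Countable {A : Fin 2 → Fin 2 → ℤ // det A = 1})

instance : Countable Af :=
  Function.Injective.countable (f := fun a : Af => (a.A, a.t)) fun _ _ h =>
    Af.ext (congrArg Prod.fst h) (congrArg Prod.snd h)

theorem smul2 (A : L2) (v : V2) :
    A • v = ![A.1 0 0 * v 0 + A.1 0 1 * v 1, A.1 1 0 * v 0 + A.1 1 1 * v 1] := mv2 A v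

/-- A cocycle over an action of the free group. -/
structure Coc {T G : Type} [Group G] (act : F2 → T → T) (c : F2 → T → G) : Prop where
  aone : ∀ y, act 1 y = y
  amul : ∀ w w' y, act (w * w') y = act w (act w' y)
  mul : ∀ w w' y, c (w * w') y = c w (act w' y) * c w' y

section
variable {T G : Type} [Group G] {act : F2 → T → T} {c : F2 → T → G}

theorem Coc.one (h : Coc act c) (y : T) : c 1 y = 1 := by
  have := h.mul 1 1 y
  rw [mul_one, h.aone] at this
  exact left_eq_mul.1 this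

theorem Coc.ainv (h : Coc act c) (w : F2) (y : T) : act w (act w⁻¹ y) = y := by
  rw [← h.amul, mul_inv_cancel, h.aone]

theorem Coc.inv (h : Coc act c) (w : F2) (y : T) : c w⁻¹ y = (c w (act w⁻¹ y))⁻¹ := by
  rw [eq_inv_iff_mul_eq_one, mul_eq_one_comm, ← h.mul, mul_inv_cancel, h.one]

theorem exists_coc (h1 : ∀ y, act 1 y = y) (h2 : ∀ w w' y, act (w * w') y = act w (act w' y))
    (k : Bool → T → G) :
    ∃ c : F2 → T → G, Coc act c ∧ ∀ b y, c (FreeGroup.of b) y = k b y := by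
  have i1 : ∀ w y, act w⁻¹ (act w y) = y := fun w y => by rw [← h2, inv_mul_cancel, h1]
  have i2 : ∀ w y, act w (act w⁻¹ y) = y := fun w y => by rw [← h2, mul_inv_cancel, h1]
  let e : Bool → Equiv.Perm (T × G) := fun b =>
    ⟨fun p => (act (FreeGroup.of b) p.1, k b p.1 * p.2),
      fun p => (act (FreeGroup.of b)⁻¹ p.1, (k b (act (FreeGroup.of b)⁻¹ p.1))⁻¹ * p.2),
      fun p => by simp [i1], fun p => by simp [i2]⟩
  have key : ∀ (w : F2) (y : T) (g : G),
      FreeGroup.lift e w (y, g) = (act w y, (FreeGroup.lift e w (y, 1)).2 * g) := by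
    intro w
    induction w using FreeGroup.induction_on with
    | C1 => intro y g; simp [h1]
    | of b => intro y g; simp [e]
    | inv_of b _ =>
      intro y g
      rw [map_inv, FreeGroup.lift_apply_of]
      change (_, _ * g) = (_, _ * 1 * g)
      rw [mul_one]
    | mul x z hx hz =>
      intro y g
      rw [map_mul, Equiv.Perm.mul_apply, Equiv.Perm.mul_apply, hz y g, hx, hz y 1, hx _ (_ * 1),
        h2, mul_one, mul_assoc]
  refine ⟨fun w y => (FreeGroup.lift e w (y, 1)).2, ⟨h1, h2, fun w w' y => ?_⟩, fun b y => ?_⟩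
  · rw [map_mul, Equiv.Perm.mul_apply, key w' y 1, key w _ (_ * 1), mul_one]
  · simp [e]

end

/-- An element of order 4. -/
def eS : L2 := ModularGroup.S

/-- An element of order 3. -/
def eT : L2 := ⟨!![-1, -1; 1, 0], by simp [det_fin_two_of]⟩

/-- The vertex opposite to the base vertex. -/
def q11 : Q4 := Multiplicative.ofAdd (1, 1)

theorem exists_vol : ∃ c : F2 → Q4 → L2, Coc (fun w x => qq w * x) c ∧ ∀ b x,
    c (FreeGroup.of b) x =
      bif b then (if x = 1 then eS else if x = q11 then eT else 1) else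
        if x = q11 then eS else 1 :=
  exists_coc (fun y => by simp) (fun w w' y => by simp [mul_assoc]) _

/-- The voltage of a path. -/
noncomputable def vol : F2 → Q4 → L2 := exists_vol.choose

theorem vol_coc : Coc (fun w x => qq w * x) vol := exists_vol.choose_spec.1

theorem vol_A (x : Q4) : vol gA x = if x = 1 then eS else if x = q11 then eT else 1 :=
  exists_vol.choose_spec.2 true x

theorem vol_B (x : Q4) : vol gB x = if x = q11 then eS else 1 := exists_vol.choose_spec.2 false x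

theorem vol_mul (w w' : F2) (x : Q4) : vol (w * w') x = vol w (qq w' * x) * vol w' x :=
  vol_coc.mul w w' x

theorem vol_inv (w : F2) (x : Q4) : vol w⁻¹ x = (vol w ((qq w)⁻¹ * x))⁻¹ := by
  rw [vol_coc.inv, map_inv]

/-- Labellings of SL(2,Z). -/
abbrev Ys : Type := L2 → ℤ

/-- The shift. -/
def sh (l : L2) (η : Ys) : Ys := fun m => η (l⁻¹ * m)

theorem sh_one (η : Ys) : sh 1 η = η := by ext m; simp [sh]

theorem sh_mul (l l' : L2) (η : Ys) : sh (l * l') η = sh l (sh l' η) := by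
  ext m; simp [sh, mul_assoc]

/-- The action of the free group on pairs (vertex, labelling). -/
noncomputable def act (w : F2) (y : Q4 × Ys) : Q4 × Ys := (qq w * y.1, sh (vol w y.1) y.2)

theorem exists_kap : ∃ c : F2 → Q4 × Ys → Af, Coc act c ∧ ∀ b y, c (FreeGroup.of b) y =
    bif b then ⟨san gA, 0⟩ else ⟨san gB, if y.1 = 1 then ![0, y.2 1] else 0⟩ :=
  exists_coc (fun y => by simp [act, vol_coc.one, sh_one])
    (fun w w' y => by simp [act, vol_mul, sh_mul, mul_assoc]) _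

/-- The affine cocycle. -/
noncomputable def kap : F2 → Q4 × Ys → Af := exists_kap.choose

theorem kap_coc : Coc act kap := exists_kap.choose_spec.1

theorem kap_A (y : Q4 × Ys) : kap gA y = ⟨san gA, 0⟩ := exists_kap.choose_spec.2 true y

theorem kap_B (y : Q4 × Ys) : kap gB y = ⟨san gB, if y.1 = 1 then ![0, y.2 1] else 0⟩ :=
  exists_kap.choose_spec.2 false y

theorem kap_lin (w : F2) : ∀ y, (kap w y).A = san w := by
  induction w using FreeGroup.induction_on with
  | C1 => intro y; rw [kap_coc.one, map_one]; rfl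
  | of b =>
    intro y
    cases b
    · exact congrArg Af.A (kap_B y)
    · exact congrArg Af.A (kap_A y)
  | inv_of b h => intro y; rw [kap_coc.inv, Af.inv_A, h, map_inv]
  | mul x z hx hz => intro y; rw [kap_coc.mul, Af.mul_A, hx, hz, map_mul]

theorem kap_mul_t (w w' : F2) (y : Q4 × Ys) :
    (kap (w * w') y).t = san w • (kap w' y).t + (kap w (act w' y)).t := by
  rw [kap_coc.mul, Af.mul_t, kap_lin]

theorem kap_inv_t (w : F2) (y : Q4 × Ys) :
    (kap w⁻¹ y).t = -((san w)⁻¹ • (kap w (act w⁻¹ y)).t) := by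
  rw [kap_coc.inv, Af.inv_t, kap_lin]

theorem act_base {w : F2} (h : qq w = 1) (η : Ys) : act w (1, η) = (1, sh (vol w 1) η) := by
  simp [act, h]

/-- The group attached to a labelling. -/
def Lg (η : Ys) : Subgroup Af where
  carrier := {a | ∃ w, act w (1, η) = (1, η) ∧ kap w (1, η) = a}
  one_mem' := ⟨1, kap_coc.aone _, kap_coc.one _⟩
  mul_mem' := by
    rintro _ _ ⟨w, h, rfl⟩ ⟨w', h', rfl⟩
    exact ⟨w * w', by rw [kap_coc.amul, h', h], by rw [kap_coc.mul, h']⟩
  inv_mem' := by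
    rintro _ ⟨w, h, rfl⟩
    have e : act w⁻¹ (1, η) = (1, η) := by
      have := kap_coc.ainv w⁻¹ (1, η)
      rwa [inv_inv, h] at this
    exact ⟨w⁻¹, e, by rw [kap_coc.inv, e]⟩

theorem kap_conj (w d : F2) (y : Q4 × Ys) (h : act d y = y) :
    kap w y * kap d y * (kap w y)⁻¹ = kap (w * d * w⁻¹) (act w y) := by
  have e : act w⁻¹ (act w y) = y := by
    have := kap_coc.ainv w⁻¹ y
    rwa [inv_inv] at this
  rw [kap_coc.mul, kap_coc.mul, kap_coc.inv, e, h]

theorem Lg_conj {w : F2} (h : qq w = 1) (η : Ys) {a : Af} (ha : a ∈ Lg η) :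
    kap w (1, η) * a * (kap w (1, η))⁻¹ ∈ Lg (sh (vol w 1) η) := by
  obtain ⟨d, hd, rfl⟩ := ha
  rw [kap_conj w d _ hd, act_base h]
  refine ⟨_, ?_, rfl⟩
  rw [← act_base h, ← kap_coc.amul, inv_mul_cancel_right, kap_coc.amul, hd]

theorem Lg_lift (η : Ys) {a : Af} (ha : a ∈ Lg η) (h : a.A = 1) : a = 1 := by
  obtain ⟨w, -, rfl⟩ := ha
  rw [kap_lin, map_eq_one_iff _ san_inj] at h
  rw [h, kap_coc.one]

/-- Closed paths along which the cocycle has no translation part. -/
def Fl : Subgroup F2 where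
  carrier := {w | qq w = 1 ∧ ∀ η, (kap w (1, η)).t = 0}
  one_mem' := ⟨map_one _, fun η => by rw [kap_coc.one]; rfl⟩
  mul_mem' := by
    rintro a b ⟨ha, ha'⟩ ⟨hb, hb'⟩
    exact ⟨by rw [map_mul, ha, hb, mul_one], fun η => by
      rw [kap_mul_t, act_base hb, ha', hb', smul_zero, add_zero]⟩
  inv_mem' := by
    rintro a ⟨ha, ha'⟩
    have e : qq a⁻¹ = 1 := by rw [map_inv, ha, inv_one]
    exact ⟨e, fun η => by rw [kap_inv_t, act_base e, ha', smul_zero, neg_zero]⟩

theorem flA : gA * gA ∈ Fl ∧ vol (gA * gA) 1 = eS := by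
  refine ⟨⟨by rw [map_mul, qq_A]; decide, fun η => by simp [kap_mul_t, kap_A]⟩, ?_⟩
  rw [vol_mul, vol_A, vol_A, qq_A, if_neg (by decide), if_neg (by decide), if_pos rfl, one_mul]

theorem flT : gA * (gB⁻¹ * (gA * (gA * (gB * gA⁻¹)))) ∈ Fl ∧
    vol (gA * (gB⁻¹ * (gA * (gA * (gB * gA⁻¹))))) 1 = eT := by
  refine ⟨⟨by simp only [map_mul, map_inv, qq_A, qq_B]; decide, fun η => ?_⟩, ?_⟩
  · simp only [kap_mul_t, kap_inv_t, kap_A, kap_B, act, map_mul, map_inv, qq_A, qq_B]
    rw [if_neg (by decide), if_neg (by decide)]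
    simp
  · simp only [vol_mul, vol_inv, vol_A, vol_B, map_mul, map_inv, qq_A, qq_B]
    simp +decide

theorem flI : gA * (gB⁻¹ * (gA * gB⁻¹)) ∈ Fl ∧ vol (gA * (gB⁻¹ * (gA * gB⁻¹))) 1 = 1 := by
  refine ⟨⟨by simp only [map_mul, map_inv, qq_A, qq_B]; decide, fun η => ?_⟩, ?_⟩
  · simp only [kap_mul_t, kap_inv_t, kap_A, kap_B, act, map_mul, map_inv, qq_A, qq_B]
    rw [if_neg (by decide), if_neg (by decide)]
    simp
  · simp only [vol_mul, vol_inv, vol_A, vol_B, map_mul, map_inv, qq_A, qq_B]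
    simp +decide

theorem vol_mul1 (w : F2) {w' : F2} (h : qq w' = 1) : vol (w * w') 1 = vol w 1 * vol w' 1 := by
  rw [vol_mul, h, one_mul]

theorem vol_inv1 {w : F2} (h : qq w = 1) : vol w⁻¹ 1 = (vol w 1)⁻¹ := by
  rw [vol_inv, h, inv_one, one_mul]

theorem exists_flat (l : L2) : ∃ f ∈ Fl, vol f 1 = l := by
  let S : Subgroup L2 :=
    { carrier := {l | ∃ f ∈ Fl, vol f 1 = l}
      one_mem' := ⟨1, Fl.one_mem, vol_coc.one _⟩
      mul_mem' := by
        rintro _ _ ⟨a, ha, rfl⟩ ⟨b, hb, rfl⟩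
        exact ⟨a * b, Fl.mul_mem ha hb, vol_mul1 a hb.1⟩
      inv_mem' := by
        rintro _ ⟨a, ha, rfl⟩
        exact ⟨a⁻¹, Fl.inv_mem ha, vol_inv1 ha.1⟩ }
  have hs : eS ∈ S := ⟨_, flA.1, flA.2⟩
  have ht : eT ∈ S := ⟨_, flT.1, flT.2⟩
  have e : ModularGroup.T * eT = eS := by
    apply L2ext <;> simp only [L2mul] <;> decide
  have : Subgroup.closure {ModularGroup.S, ModularGroup.T} ≤ S := by
    rw [Subgroup.closure_le]
    rintro x (rfl | rfl)
    · exact hs
    · rw [eq_mul_inv_of_mul_eq e]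
      exact S.mul_mem hs (S.inv_mem ht)
  rw [SpecialLinearGroup.SL2Z_generators] at this
  exact this (Subgroup.mem_top l)

theorem eS_four : eS * eS * (eS * eS) = 1 := by
  apply L2ext <;> simp only [L2mul] <;> decide

theorem carrier (f : F2) (hf : f ∈ Fl) :
    qq (f * (gB * gB) * f⁻¹) = 1 ∧ vol (f * (gB * gB) * f⁻¹) 1 = 1 ∧
      ∀ ζ : Ys, (kap (f * (gB * gB) * f⁻¹) (1, ζ)).t = san f • ![0, ζ (vol f 1)] := by
  have hi := Fl.inv_mem hf
  have q2 : qq (gB * gB) = 1 := by rw [map_mul, qq_B]; decide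
  have v2 : vol (gB * gB) 1 = 1 := by
    rw [vol_mul, vol_B, vol_B, qq_B, if_neg (by decide), if_neg (by decide), one_mul]
  refine ⟨by rw [map_mul, map_mul, hf.1, q2, hi.1, one_mul, one_mul], ?_, fun ζ => ?_⟩
  · rw [vol_mul1 _ hi.1, vol_mul1 _ q2, v2, mul_one, vol_inv1 hf.1, mul_inv_cancel]
  · rw [kap_mul_t, hi.2, smul_zero, zero_add, act_base hi.1, kap_mul_t, act_base q2, hf.2,
      add_zero, kap_mul_t, kap_B, kap_B, vol_inv1 hf.1]
    simp only [act, qq_B]
    rw [if_pos trivial, if_neg (by decide), add_zero, san_B, smul2 (Tv _ _)]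
    simp [Tv00, Tv01, Tv10, Tv11, sh]

theorem rigid {h : Af} {ζ η : Ys}
    (H : ∀ d, qq d = 1 → vol d 1 = 1 → h * kap d (1, ζ) = kap d (1, η) * h) :
    h.t = 0 ∧ (h.A = 1 → η = ζ) ∧ (h.A = -1 → η = -ζ) := by
  have H' : ∀ d, qq d = 1 → vol d 1 = 1 →
      h.A • (kap d (1, ζ)).t + h.t = san d • h.t + (kap d (1, η)).t := fun d h1 h2 => by
    have := congrArg Af.t (H d h1 h2)
    rwa [Af.mul_t, Af.mul_t, kap_lin] at this
  have fix : ∀ d ∈ Fl, vol d 1 = 1 → h.t = san d • h.t := fun d hd h2 => by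
    have := H' d hd.1 h2
    rwa [hd.2, hd.2, smul_zero, zero_add, add_zero] at this
  have a2 := Fl.mul_mem flA.1 flA.1
  have t1 := fix _ (Fl.mul_mem a2 a2) (by
    rw [vol_mul1 _ a2.1, vol_mul1 _ flA.1.1, flA.2, eS_four])
  have t2 := fix _ flI.1 flI.2
  simp only [map_mul, map_inv, san_A, san_B] at t1 t2
  simp only [← _root_.zpow_neg_one, Tv_zpow, ← Tv_add] at t1 t2
  simp only [mul_smul, smul2, ext2, Tv00, Tv01, Tv10, Tv11] at t1 t2
  simp only [cons_val_zero, cons_val_one] at t1 t2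
  have t0 : h.t = 0 := by
    rw [ext2]
    simp only [Pi.zero_apply]
    omega
  have key : ∀ l, ∃ B : L2, h.A • B • (![0, ζ l] : V2) = B • (![0, η l] : V2) := fun l => by
    obtain ⟨f, hf, rfl⟩ := exists_flat l
    obtain ⟨c1, c2, c3⟩ := carrier f hf
    have := H' _ c1 c2
    rw [t0, smul_zero, add_zero, zero_add, c3, c3] at this
    exact ⟨_, this⟩
  refine ⟨t0, fun e => funext fun l => ?_, fun e => funext fun l => ?_⟩
  · obtain ⟨B, hB⟩ := key l
    rw [e, one_smul, smul_left_cancel_iff] at hB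
    exact (congrFun hB 1).symm
  · obtain ⟨B, hB⟩ := key l
    have n : ∀ u : V2, (-1 : L2) • u = -u := fun u => by rw [smul2, ext2]; simp
    rw [e, n, ← smul_neg, smul_left_cancel_iff] at hB
    exact (congrFun hB 1).symm

/-- Nonnegative nonzero labellings whose translates have torsion free stabilisers. -/
def Good (η : Ys) : Prop :=
  (∀ m, 0 ≤ η m) ∧ η ≠ 0 ∧ ∀ l m : L2, IsOfFinOrder m → sh m (sh l η) = sh l η → m = 1

theorem joint {K : Subgroup Af} (hK : ∀ a ∈ K, a.A = 1 → a = 1) {g : Af} {w : F2} (hw : qq w = 1)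
    (hg : g.A = san w ∨ g.A = -san w) {η η' : Ys} (hη : Good η) (hη' : Good η')
    (h1 : ∀ a ∈ Lg η, g * a * g⁻¹ ∈ K) (h2 : Lg η' ≤ K) :
    g = kap w (1, η) ∧ sh (vol w 1) η = η' := by
  have hA : (g * (kap w (1, η))⁻¹).A = 1 ∨ (g * (kap w (1, η))⁻¹).A = -1 := by
    rw [Af.mul_A, Af.inv_A, kap_lin]
    exact hg.imp (fun e => by rw [e, mul_inv_cancel]) fun e => by rw [e, neg_mul, mul_inv_cancel]
  obtain ⟨r0, r1, r2⟩ := rigid (h := g * (kap w (1, η))⁻¹) (ζ := sh (vol w 1) η) (η := η') fun d q1 v1 => by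
    have fx : ∀ ξ, act d (1, ξ) = (1, ξ) := fun ξ => by rw [act_base q1, v1, sh_one]
    have e0 : act (w⁻¹ * d * w) (1, η) = (1, η) := by
      rw [kap_coc.amul, kap_coc.amul, act_base hw, fx, ← act_base hw, ← kap_coc.amul,
        inv_mul_cancel, kap_coc.aone]
    have e1 := kap_conj w _ _ e0
    rw [act_base hw, show w * (w⁻¹ * d * w) * w⁻¹ = d by group] at e1
    have m1 := h1 _ ⟨_, e0, rfl⟩
    have m2 := h2 ⟨d, fx η', rfl⟩
    have := hK _ (K.mul_mem m1 (K.inv_mem m2)) (by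
      simp only [Af.mul_A, Af.inv_A, kap_lin, map_mul, map_inv]
      rcases hg with e | e <;> rw [e]
      · group
      · rw [inv_neg, neg_mul, neg_mul_neg]; group)
    rw [← e1, ← mul_inv_eq_one.1 this]
    group
  rcases hA with e | e
  · exact ⟨mul_inv_eq_one.1 (Af.ext e r0), (r1 e).symm⟩
  · refine (hη'.2.1 (funext fun m => le_antisymm ?_ (hη'.1 m))).elim
    rw [r2 e]
    exact neg_nonpos.2 (hη.1 _)

/-- The cusp widths, as a function of a vector modulo 4. -/
def col (a b : ZMod 4) : ℕ :=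
  if (a + a = 2 ∧ b = 0) ∨ (a = 2 ∧ b + b = 2) then 4 else
    if (a + a = 2 ∧ b = 2) ∨ (a + a = 2 ∧ a + b = 0) then 3 else
      if (a = 0 ∧ b + b = 2) ∨ (a + a = 2 ∧ a = b) then 1 else 0

/-- The width of the cusp of an integer vector. -/
def colv (v : V2) : ℕ := col (v 0) (v 1)

theorem colv_neg (v : V2) : colv (-v) = colv v := by
  simp only [colv, Pi.neg_apply, Int.cast_neg]
  generalize (v 0 : ZMod 4) = a
  generalize (v 1 : ZMod 4) = b
  revert a b
  decide

theorem col_rigid : ∀ a b c d : ZMod 4, col a c = 4 → col b d = 1 → col (a + b) (c + d) = 1 →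
    col (a + a + b) (c + c + d) = 4 → (a * d - b * c = 1 ∨ a * d - b * c = -1) →
    b = 0 ∧ c = 0 ∧ (a = 1 ∧ d = 1 ∨ a = -1 ∧ d = -1) := by
  decide

/-- The loops around the three cusps. -/
def uu : Fin 3 → F2 := ![gA * gA, gB⁻¹ * gB⁻¹, gB * (gA⁻¹ * (gB * gA⁻¹))]

theorem uu_q (j : Fin 3) : qq (uu j) = 1 := by
  fin_cases j <;> simp only [uu] <;> simp [qq_A, qq_B] <;> decide

theorem uu_san (j : Fin 3) : san (uu j) = Tv (base j) 4 := by
  have a : (san gA)⁻¹ = Tv ![1, 0] (-2) := by rw [san_A, ← _root_.zpow_neg_one, Tv_zpow]; rfl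
  have b : (san gB)⁻¹ = Tv ![0, 1] 2 := by rw [san_B, ← _root_.zpow_neg_one, Tv_zpow]; rfl
  fin_cases j
  · change san (gA * gA) = _
    rw [map_mul, san_A, ← Tv_add]; rfl
  · change san (gB⁻¹ * gB⁻¹) = _
    rw [map_mul, map_inv, b, ← Tv_add]; rfl
  · change san (gB * (gA⁻¹ * (gB * gA⁻¹))) = _
    simp only [map_mul, map_inv, a, san_B]
    apply L2ext <;> simp only [L2mul] <;> decide

theorem ord_S : orderOf eS = 4 :=
  orderOf_eq_prime_pow (p := 2) (n := 1) (fun h => by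
    have := congrArg (fun A : L2 => A.1 0 0) h
    simp only [pow_one, pow_two, L2mul] at this
    revert this
    decide) (by rw [show 2 ^ (1 + 1) = 2 + 2 from rfl, pow_add, pow_two, eS_four])

theorem ord_T : orderOf eT = 3 :=
  haveI : Fact (Nat.Prime 3) := ⟨Nat.prime_three⟩
  orderOf_eq_prime (by
    rw [pow_three]
    apply L2ext <;> simp only [L2mul] <;> decide) fun h => by
    have := congrArg (fun A : L2 => A.1 0 0) h
    revert this
    decide

theorem uu_ord (j : Fin 3) (w : F2) :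
    orderOf (vol (uu j) (qq w⁻¹)) = colv (san w • base j) ∧ 0 < colv (san w • base j) := by
  obtain ⟨m0, m1, m2, m3⟩ := san_mod w
  have oc : orderOf (eS * (eT⁻¹ * eS⁻¹)) = 3 := by
    rw [← mul_assoc, ← MulAut.conj_apply, MulEquiv.orderOf_eq, orderOf_inv, ord_T]
  have hx : ∀ x : Q4, x = 1 ∨ x = q11 ∨ x = Multiplicative.ofAdd (1, 0) ∨
    x = Multiplicative.ofAdd (0, 1) := by decide
  simp only [colv, smul2, cons_val_zero, cons_val_one, Int.cast_add, Int.cast_mul, m0, m1, m2, m3,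
    map_inv]
  fin_cases j
  · change orderOf (vol (gA * gA) _) = _ ∧ _
    simp only [vol_mul, vol_A, qq_A]
    rcases hx (qq w) with e | e | e | e <;> rw [e] <;>
      simp +decide [ord_S, ord_T, base]
  · change orderOf (vol (gB⁻¹ * gB⁻¹) _) = _ ∧ _
    simp only [vol_mul, vol_inv, vol_B, qq_B, map_inv]
    rcases hx (qq w) with e | e | e | e <;> rw [e] <;>
      simp +decide [ord_S, base]
  · change orderOf (vol (gB * (gA⁻¹ * (gB * gA⁻¹))) _) = _ ∧ _
    simp only [vol_mul, vol_inv, vol_A, vol_B, qq_A, qq_B, map_inv, map_mul]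
    rcases hx (qq w) with e | e | e | e <;> rw [e] <;>
      simp +decide [ord_T, oc, base]

theorem vol_zpow {u : F2} (hu : qq u = 1) (x : Q4) (k : ℤ) : vol (u ^ k) x = vol u x ^ k := by
  let f : qq.ker →* L2 := MonoidHom.mk' (fun w => vol w x) fun a b => by
    change vol (a.1 * b.1) x = _
    rw [vol_mul, MonoidHom.mem_ker.1 b.2, one_mul]
  exact map_zpow f ⟨u, hu⟩ k

theorem width {η : Ys} (hη : Good η) {v : V2} (hv : IsCoprime (v 0) (v 1)) :
    0 < colv v ∧ ∀ k : ℤ, (∃ a ∈ Lg η, a.A = Tv v (4 * k)) ↔ (colv v : ℤ) ∣ k := by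
  obtain ⟨w, j, hw⟩ := descent v hv
  obtain ⟨o1, o2⟩ := uu_ord j w
  have hc : colv v = colv (san w • base j) := by
    rcases hw with e | e
    · exact congrArg colv e
    · rw [← colv_neg]; exact congrArg colv e
  have hT : ∀ k, san (w * uu j ^ k * w⁻¹) = Tv v (4 * k) := fun k => by
    rw [map_mul, map_mul, map_inv, map_zpow, uu_san, Tv_zpow, Tv_conj]
    rcases hw with e | e
    · rw [← e]
    · rw [← e, Tv_neg]
  refine ⟨hc ▸ o2, fun k => ?_⟩
  have e1 : act (w * uu j ^ k * w⁻¹) (1, η) = (1, η) ↔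
      act (uu j ^ k) (act w⁻¹ (1, η)) = act w⁻¹ (1, η) := by
    rw [kap_coc.amul, kap_coc.amul]
    refine ⟨fun h => ?_, fun h => by rw [h, kap_coc.ainv]⟩
    have := congrArg (act w⁻¹) h
    rwa [← kap_coc.amul, inv_mul_cancel, kap_coc.aone] at this
  have e2 : act (uu j ^ k) (act w⁻¹ (1, η)) = act w⁻¹ (1, η) ↔ (colv v : ℤ) ∣ k := by
    rw [hc, ← o1, orderOf_dvd_iff_zpow_eq_one]
    simp only [act, map_zpow, uu_q, _root_.one_zpow, one_mul, mul_one, Prod.mk.injEq, true_and,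
      vol_zpow (uu_q j)]
    refine ⟨hη.2.2 _ _ (IsOfFinOrder.zpow ?_), fun h => by rw [h, sh_one]⟩
    rw [← orderOf_pos_iff, o1]
    exact o2
  rw [← e2, ← e1]
  refine ⟨?_, fun h => ⟨_, ⟨_, h, rfl⟩, by rw [kap_lin, hT]⟩⟩
  rintro ⟨_, ⟨d, hd, rfl⟩, e⟩
  rw [kap_lin, ← hT] at e
  rwa [← san_inj e]

end Pool.Agent.MP_5045a8_al.UN
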