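import Mathlib

/-! The theorems of Lusin and Novikov and of Feldman and Moore. -/

namespace Pool.Agent.MP_5045a8_al.UN

open Set MeasureTheory Filter Topology

theorem an_inter {Z : Type} [TopologicalSpace Z] [T2Space Z] {s t : Set Z} (hs : AnalyticSet s)
    (ht : AnalyticSet t) : AnalyticSet (s ∩ t) := by
  rw [inter_eq_iInter]
  exact AnalyticSet.iInter fun b => by cases b <;> assumption

section
variable {Z X : Type} [MetricSpace Z] [CompleteSpace Z] [SecondCountableTopology Z]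
  [MeasurableSpace Z] [BorelSpace Z] [TopologicalSpace X] [T2Space X] {f : Z → X}

theorem borel_inj (hf : Continuous f) {A : Set Z} (hA : AnalyticSet A) (hi : InjOn f A) :
    ∃ B, MeasurableSet B ∧ InjOn f B ∧ A ⊆ B := by
  have key : ∀ C : Set Z, AnalyticSet C → AnalyticSet {z | ∃ a ∈ C, a ≠ z ∧ f a = f z} := by
    intro C hC
    have h1 : MeasurableSet {p : Z × Z | p.1 ≠ p.2 ∧ f p.1 = f p.2} :=
      (isOpen_ne_fun continuous_fst continuous_snd).measurableSet.inter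
        (isClosed_eq hf.fst' hf.snd').measurableSet
    convert (an_inter (hC.preimage continuous_fst) h1.analyticSet).image_of_continuous
      continuous_snd using 1
    ext z
    simp
  obtain ⟨B, b1, b2, b3⟩ := hA.measurablySeparable (key A hA) (Set.disjoint_left.2 fun z hz h => by
    obtain ⟨a, ha, h1, h2⟩ := h
    exact h1 (hi ha hz h2))
  obtain ⟨C, c1, c2, c3⟩ := hA.measurablySeparable (key B b3.analyticSet)
    (Set.disjoint_left.2 fun z hz h => by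
      obtain ⟨a, ha, h1, h2⟩ := h
      exact Set.disjoint_left.1 b2 ⟨z, hz, h1.symm, h2.symm⟩ ha)
  refine ⟨B ∩ C, b3.inter c3, fun z hz z' hz' e => by_contra fun hn => ?_, subset_inter b1 c1⟩
  exact Set.disjoint_left.1 c2 ⟨z, hz.1, hn, e⟩ hz'.2

theorem ln_top (hf : Continuous f) (hc : ∀ x, (f ⁻¹' {x}).Countable) :
    ∃ 𝓑 : Set (Set Z), 𝓑.Countable ∧ (∀ B ∈ 𝓑, MeasurableSet B ∧ InjOn f B) ∧ ⋃₀ 𝓑 = univ := by
  classical
  let b : Set (Set Z) := insert univ (TopologicalSpace.countableBasis Z)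
  have bo : ∀ U ∈ b, IsOpen U := by
    rintro U (rfl | h)
    exacts [isOpen_univ, TopologicalSpace.isOpen_of_mem_countableBasis h]
  have bc : b.Countable := (TopologicalSpace.countable_countableBasis Z).insert _
  let Gd : Set (Set Z) → Prop := fun 𝓑 => 𝓑.Countable ∧ ∀ B ∈ 𝓑, MeasurableSet B ∧ InjOn f B
  let P : Set Z → Set (Set Z) → Prop := fun W 𝒰 => ∃ x, ∀ U ∈ 𝒰, ∃ z ∈ U, z ∉ W ∧ f z = x
  have ch : ∀ 𝒰, ∃ 𝓑, Gd 𝓑 ∧ ∀ 𝓒, Gd 𝓒 → ¬ P (⋃₀ 𝓒) 𝒰 → ¬ P (⋃₀ 𝓑) 𝒰 := fun 𝒰 => by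
    by_cases h : ∃ 𝓒, Gd 𝓒 ∧ ¬ P (⋃₀ 𝓒) 𝒰
    · obtain ⟨𝓒, h1, h2⟩ := h
      exact ⟨𝓒, h1, fun _ _ _ => h2⟩
    · exact ⟨∅, ⟨countable_empty, by simp⟩, fun 𝓒 h1 h2 => absurd ⟨𝓒, h1, h2⟩ h⟩
  choose F hF hF' using ch
  let 𝓜 : Set (Set Z) := ⋃ 𝒰 ∈ {𝒰 : Set (Set Z) | 𝒰.Finite ∧ 𝒰 ⊆ b}, F 𝒰
  have hM : Gd 𝓜 := ⟨(countable_ofPred_finite_subset bc).biUnion fun 𝒰 _ => (hF 𝒰).1,
    fun B hB => by
      obtain ⟨𝒰, -, h⟩ := mem_iUnion₂.1 hB
      exact (hF 𝒰).2 B h⟩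
  have hW : MeasurableSet (⋃₀ 𝓜) := MeasurableSet.sUnion hM.1 fun B h => (hM.2 B h).1
  have mx : ∀ 𝒰, 𝒰.Finite → 𝒰 ⊆ b → P (⋃₀ 𝓜) 𝒰 → ∀ 𝓒, Gd 𝓒 → P (⋃₀ 𝓒) 𝒰 := by
    rintro 𝒰 h1 h2 ⟨x, hx⟩ 𝓒 h3
    by_contra h4
    refine hF' 𝒰 𝓒 h3 h4 ⟨x, fun U hU => ?_⟩
    obtain ⟨z, z1, z2, z3⟩ := hx U hU
    exact ⟨z, z1, fun h => z2 (sUnion_subset_sUnion
      (fun B hB => mem_iUnion₂.2 ⟨𝒰, ⟨h1, h2⟩, hB⟩) h), z3⟩
  refine ⟨𝓜, hM.1, hM.2, by_contra fun hne => ?_⟩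
  generalize hWe : ⋃₀ 𝓜 = W at hW mx hne
  have split : ∀ 𝒰, 𝒰.Finite → 𝒰 ⊆ b → P W 𝒰 → ∀ U ∈ 𝒰, ∃ x, (∀ V ∈ 𝒰, ∃ z ∈ V, z ∉ W ∧ f z = x) ∧
      ∃ z ∈ U, ∃ z' ∈ U, z ∉ W ∧ z' ∉ W ∧ z ≠ z' ∧ f z = x ∧ f z' = x := by
    intro 𝒰 h1 h2 h3 U hU
    by_contra hn
    have an : ∀ V ∈ 𝒰, AnalyticSet (V \ W) := fun V hV =>
      ((bo V (h2 hV)).measurableSet.diff hW).analyticSet
    have : Nonempty 𝒰 := ⟨⟨U, hU⟩⟩
    have : Countable 𝒰 := h1.countable.to_subtype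
    have hD : AnalyticSet (⋂ V : 𝒰, f '' (V.1 \ W)) :=
      AnalyticSet.iInter fun V => (an V V.2).image_of_continuous hf
    obtain ⟨B, B1, B2, B3⟩ := borel_inj hf (an_inter (an U hU) (hD.preimage hf))
      fun z hz z' hz' e => by_contra fun h => hn ⟨f z, fun V hV => by
        obtain ⟨y, y1, y2⟩ := mem_iInter.1 hz.2 ⟨V, hV⟩
        exact ⟨y, y1.1, y1.2, y2⟩, z, hz.1.1, z', hz'.1.1, hz.1.2, hz'.1.2, h, rfl, e.symm⟩
    obtain ⟨x, hx⟩ := mx 𝒰 h1 h2 h3 (insert B 𝓜) ⟨hM.1.insert B, by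
      rintro C (rfl | h)
      exacts [⟨B1, B2⟩, hM.2 C h]⟩
    rw [sUnion_insert, hWe] at hx
    obtain ⟨z, z1, z2, rfl⟩ := hx U hU
    refine z2 (Or.inl (B3 ⟨⟨z1, fun h => z2 (Or.inr h)⟩, mem_iInter.2 fun V => ?_⟩))
    obtain ⟨y, y1, y2, y3⟩ := hx V V.2
    exact ⟨y, ⟨y1, fun h => y2 (Or.inr h)⟩, y3⟩
  have small : ∀ (U : Set Z) (z : Z) (ε : ENNReal) (r : ℝ), IsOpen U → z ∈ U → 0 < ε → 0 < r →
      ∃ N ∈ b, z ∈ N ∧ closure N ⊆ U ∧ Metric.ediam N ≤ ε ∧ N ⊆ Metric.ball z r := by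
    intro U z ε r hU hz hε hr
    obtain ⟨C, C1, C2, C3⟩ := exists_mem_nhds_isClosed_subset (hU.mem_nhds hz)
    obtain ⟨N, N1, N2, N3⟩ := (TopologicalSpace.isBasis_countableBasis Z).mem_nhds_iff.1
      (inter_mem C1 (inter_mem (Metric.eball_mem_nhds z (ENNReal.half_pos hε.ne'))
        (Metric.ball_mem_nhds z hr)))
    refine ⟨N, Or.inr N1, N2, (closure_minimal (fun y h => (N3 h).1) C2).trans C3, ?_,
      fun y h => (N3 h).2.2⟩
    refine (Metric.ediam_mono fun y h => (N3 h).2.1).trans (Metric.ediam_eball_le.trans ?_)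
    rw [two_mul, ENNReal.add_halves]
  have refine1 : ∀ (S : Set (List Bool)) (U : List Bool → Set Z) (ε : ENNReal), S.Finite →
      (∀ s, U s ∈ b) → P W (U '' S) → 0 < ε → ∀ T : Finset (List Bool), ↑T ⊆ S →
      ∃ V : List Bool → Bool → Set Z, (∀ s c, V s c ∈ b) ∧
        (∀ s ∈ T, (∀ c, closure (V s c) ⊆ U s ∧ Metric.ediam (V s c) ≤ ε) ∧
          Disjoint (V s true) (V s false)) ∧ (∀ s ∉ T, ∀ c, V s c = U s) ∧
        P W {Y | ∃ s ∈ S, ∃ c, V s c = Y} := by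
    intro S U ε hS hU hP hε T
    induction T using Finset.induction_on with
    | empty =>
      intro _
      obtain ⟨x, hx⟩ := hP
      refine ⟨fun s _ => U s, fun s _ => hU s, by simp, fun _ _ _ => rfl, x, ?_⟩
      rintro _ ⟨s, hs, -, rfl⟩
      exact hx _ ⟨s, hs, rfl⟩
    | insert t T ht ih =>
      intro hT
      rw [Finset.coe_insert, insert_subset_iff] at hT
      obtain ⟨V, V1, V2, V3, V4⟩ := ih hT.2
      have fin : {Y | ∃ s ∈ S, ∃ c, V s c = Y}.Finite :=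
        ((hS.prod (finite_univ (α := Bool))).image fun p => V p.1 p.2).subset (by
          rintro _ ⟨s, hs, c, rfl⟩
          exact ⟨(s, c), ⟨hs, trivial⟩, rfl⟩)
      obtain ⟨x, hx, z, z1, z', z2, z3, z4, z5, z6, z7⟩ := split _ fin (by
        rintro _ ⟨s, -, c, rfl⟩
        exact V1 s c) V4 (U t) ⟨t, hT.1, true, V3 t ht true⟩
      have hd := half_pos (dist_pos.2 z5)
      obtain ⟨N, N1, N2, N3, N4, N5⟩ := small _ z ε _ (bo _ (hU t)) z1 hε hd
      obtain ⟨M, M1, M2, M3, M4, M5⟩ := small _ z' ε _ (bo _ (hU t)) z2 hε hd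
      refine ⟨Function.update V t fun c => bif c then N else M, fun s c => ?_, fun s hs => ?_,
        fun s hs c => ?_, x, ?_⟩
      · by_cases e : s = t
        · rw [e, Function.update_self]; cases c <;> assumption
        · rw [Function.update_of_ne e]; exact V1 s c
      · by_cases e : s = t
        · rw [e, Function.update_self]
          refine ⟨fun c => ?_, (Metric.ball_disjoint_ball (by linarith)).mono N5 M5⟩
          cases c
          exacts [⟨M3, M4⟩, ⟨N3, N4⟩]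
        · rw [Function.update_of_ne e]
          exact V2 s ((Finset.mem_insert.1 hs).resolve_left e)
      · rw [Finset.mem_insert, not_or] at hs
        rw [Function.update_of_ne hs.1]
        exact V3 s hs.2 c
      · rintro _ ⟨s, hs, c, rfl⟩
        by_cases e : s = t
        · rw [e, Function.update_self]
          cases c
          exacts [⟨z', M2, z4, z7⟩, ⟨z, N2, z3, z6⟩]
        · rw [Function.update_of_ne e]
          exact hx _ ⟨s, hs, c, rfl⟩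
  let Inv : ℕ → (List Bool → Set Z) → Prop := fun n U =>
    (∀ s, U s ∈ b) ∧ P W (U '' {l | l.length = n})
  have step : ∀ n U, Inv n U → ∃ U', Inv (n + 1) U' ∧ ∀ l : List Bool, l.length = n →
      (∀ c, closure (U' (c :: l)) ⊆ U l ∧ Metric.ediam (U' (c :: l)) ≤ 2⁻¹ ^ n) ∧
        Disjoint (U' (true :: l)) (U' (false :: l)) := by
    rintro n U ⟨h1, h2⟩
    have hS := List.finite_length_eq Bool n
    obtain ⟨V, V1, V2, -, x, hx⟩ := refine1 _ U (2⁻¹ ^ n) hS h1 h2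
      (ENNReal.pow_pos (by simp) n) hS.toFinset (by simp)
    refine ⟨fun l => List.casesOn l univ fun c s => V s c, ⟨fun l => ?_, x, ?_⟩,
      fun l hl => V2 l (by simpa using hl)⟩
    · cases l
      exacts [Or.inl rfl, V1 _ _]
    · rintro _ ⟨l, hl, rfl⟩
      cases l with
      | nil => simp at hl
      | cons c s => exact hx _ ⟨s, by simpa using hl, c, rfl⟩
  choose g hg hg' using step
  obtain ⟨z0, hz0⟩ := (ne_univ_iff_exists_notMem W).1 hne
  let G : ∀ n, {U // Inv n U} := fun n => Nat.rec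
    ⟨fun _ => univ, fun _ => Or.inl rfl, f z0, by
      rintro _ ⟨l, -, rfl⟩
      exact ⟨z0, trivial, hz0, rfl⟩⟩ (fun n U => ⟨g n U.1 U.2, hg n U.1 U.2⟩) n
  let A : List Bool → Set Z := fun l => (G l.length).1 l
  have hA := fun l : List Bool => hg' l.length (G l.length).1 (G l.length).2 l rfl
  have a1 : CantorScheme.ClosureAntitone A := fun l c => ((hA l).1 c).1
  have a2 : CantorScheme.Disjoint A := fun l c d hcd => by
    cases c <;> cases d <;> simp only [ne_eq, not_true_eq_false] at hcd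
    exacts [(hA l).2.symm, (hA l).2]
  have a3 : CantorScheme.VanishingDiam A := fun σ => by
    rw [← tendsto_add_atTop_iff_nat 1]
    refine tendsto_of_tendsto_of_tendsto_of_le_of_le tendsto_const_nhds
      (ENNReal.tendsto_pow_atTop_nhds_zero_of_lt_one (r := 2⁻¹) (by simp)) (fun _ => zero_le)
      fun n => ?_
    have : Metric.ediam (A (σ n :: PiNat.res σ n)) ≤ 2⁻¹ ^ (PiNat.res σ n).length :=
      ((hA (PiNat.res σ n)).1 (σ n)).2
    rwa [PiNat.res_length] at this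
  have a4 : ∀ n, ∃ x, ∀ l : List Bool, l.length = n → ∃ z ∈ A l, f z = x := fun n => by
    obtain ⟨x, hx⟩ := (G n).2.2
    refine ⟨x, fun l hl => ?_⟩
    subst hl
    obtain ⟨z, z1, -, z2⟩ := hx _ ⟨l, rfl, rfl⟩
    exact ⟨z, z1, z2⟩
  choose x hx using a4
  have a5 := a1.map_of_vanishingDiam a3 fun l => (hx _ l rfl).imp fun z h => h.1
  let p : (ℕ → Bool) → Z := fun σ => (CantorScheme.inducedMap A).2 ⟨σ, a5 ▸ mem_univ σ⟩
  have lim : ∀ σ, Tendsto x atTop (𝓝 (f (p σ))) := fun σ => by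
    choose z z1 z2 using fun n => hx n (PiNat.res σ n) (PiNat.res_length σ n)
    have : Tendsto z atTop (𝓝 (p σ)) := tendsto_iff_edist_tendsto_0.2
      (tendsto_of_tendsto_of_tendsto_of_le_of_le tendsto_const_nhds (a3 σ) (fun _ => zero_le)
        fun n => Metric.edist_le_ediam_of_mem (z1 n) (CantorScheme.map_mem _ n))
    exact (funext z2 : f ∘ z = x) ▸ (hf.tendsto _).comp this
  have := (hc (f (p fun _ => true))).to_subtype
  have inj : Function.Injective fun σ : ℕ → Bool =>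
      (⟨p σ, tendsto_nhds_unique (lim σ) (lim _)⟩ : f ⁻¹' {f (p fun _ => true)}) :=
    fun σ τ h => congrArg Subtype.val
      (a2.map_injective (show p σ = p τ from congrArg Subtype.val h))
  obtain ⟨e, he⟩ := @exists_surjective_nat (ℕ → Bool) _ inj.countable
  obtain ⟨n, hn⟩ := he fun n => !e n n
  simpa using congrFun hn n

end

theorem lusin_novikov {Z X : Type} [MeasurableSpace Z] [StandardBorelSpace Z] [MeasurableSpace X]
    [StandardBorelSpace X] {f : Z → X} (hf : Measurable f) (hc : ∀ x, (f ⁻¹' {x}).Countable) :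
    ∃ 𝓑 : Set (Set Z), 𝓑.Countable ∧ (∀ B ∈ 𝓑, MeasurableSet B ∧ InjOn f B) ∧ ⋃₀ 𝓑 = univ := by
  let := upgradeStandardBorel X
  let u := upgradeStandardBorel Z
  obtain ⟨τ, hle, hfc, hτ⟩ := hf.exists_continuous
  have hb : @BorelSpace Z τ _ := @BorelSpace.mk _ τ _ (by
    rw [borel_eq_borel_of_le hτ u.toPolishSpace hle]
    exact eq_borel_upgradeStandardBorel Z)
  clear hle
  clear_value u
  clear u
  let := TopologicalSpace.upgradeIsCompletelyMetrizable Z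
  exact ln_top hfc hc

theorem feldman_moore {X : Type} [MeasurableSpace X] [StandardBorelSpace X] {E : X → X → Prop}
    (hE : Equivalence E) (hm : MeasurableSet {p : X × X | E p.1 p.2})
    (hc : ∀ x, {y | E x y}.Countable) :
    ∃ π : FreeGroup ℕ →* Equiv.Perm X, (∀ w, Measurable (π w)) ∧ ∀ x y, (∃ w, π w x = y) ↔ E x y := by
  classical
  have := hm.standardBorel
  have part : ∃ 𝓑 : Set (Set (X × X)), 𝓑.Countable ∧ (∀ B ∈ 𝓑, MeasurableSet B ∧ InjOn Prod.fst B ∧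
      ∀ p ∈ B, E p.1 p.2) ∧ ∀ x y, E x y → ∃ B ∈ 𝓑, (x, y) ∈ B := by
    obtain ⟨𝓑, h1, h2, h3⟩ := lusin_novikov (Z := {p : X × X | E p.1 p.2}) (f := fun p => p.1.1)
      (measurable_fst.comp measurable_subtype_coe) fun x => by
        refine countable_of_injective_of_countable_image (f := fun p => p.1.2) ?_
          ((hc x).mono ?_)
        · intro p hp q hq e
          exact Subtype.ext (Prod.ext (hp.trans hq.symm) e)
        · rintro _ ⟨p, rfl, rfl⟩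
          exact p.2
    refine ⟨image Subtype.val '' 𝓑, h1.image _, ?_, fun x y h => ?_⟩
    · rintro _ ⟨B, hB, rfl⟩
      refine ⟨hm.subtype_image (h2 B hB).1, ?_, ?_⟩
      · rintro _ ⟨p, hp, rfl⟩ _ ⟨q, hq, rfl⟩ e
        rw [(h2 B hB).2 hp hq e]
      · rintro _ ⟨p, -, rfl⟩
        exact p.2
    · obtain ⟨B, hB, h'⟩ := eq_univ_iff_forall.1 h3 ⟨(x, y), h⟩
      exact ⟨_, ⟨B, hB, rfl⟩, _, h', rfl⟩
  obtain ⟨𝓑, b1, b2, b3⟩ := part
  obtain ⟨β, hβ, hβ'⟩ := MeasurableSpace.measurable_injection_nat_bool_of_countablySeparated X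
  have invo : ∀ G : Set (X × X), MeasurableSet G → InjOn Prod.fst G → InjOn Prod.snd G →
      (∀ p ∈ G, ∀ q ∈ G, p.1 ≠ q.2) → ∃ g : X → X, Measurable g ∧ Function.Involutive g ∧
        (∀ p ∈ G, g p.1 = p.2) ∧ ∀ x, g x = x ∨ (x, g x) ∈ G ∨ (g x, x) ∈ G := by
    intro G g1 g2 g3 g4
    let g : X → X := fun x => if h : ∃ y, (x, y) ∈ G then h.choose else
      if h : ∃ y, (y, x) ∈ G then h.choose else x
    have e1 : ∀ p ∈ G, g p.1 = p.2 := fun p hp => by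
      have h : ∃ y, (p.1, y) ∈ G := ⟨p.2, hp⟩
      simp only [g, dif_pos h]
      exact congrArg Prod.snd (g2 h.choose_spec hp rfl)
    have e2 : ∀ p ∈ G, g p.2 = p.1 := fun p hp => by
      have h : ∃ y, (y, p.2) ∈ G := ⟨p.1, hp⟩
      have h' : ¬ ∃ y, (p.2, y) ∈ G := fun ⟨y, hy⟩ => g4 _ hy p hp rfl
      simp only [g, dif_neg h', dif_pos h]
      exact congrArg Prod.fst (g3 h.choose_spec hp rfl)
    have e3 : ∀ x, x ∉ Prod.fst '' G → x ∉ Prod.snd '' G → g x = x := fun x h1 h2 => by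
      simp only [g]
      rw [dif_neg fun ⟨y, hy⟩ => h1 ⟨_, hy, rfl⟩, dif_neg fun ⟨y, hy⟩ => h2 ⟨_, hy, rfl⟩]
    have tri : ∀ x, (∃ p ∈ G, p.1 = x) ∨ (∃ p ∈ G, p.2 = x) ∨
        x ∉ Prod.fst '' G ∧ x ∉ Prod.snd '' G := fun x => by
      rw [← not_or]
      exact or_assoc.1 (em _)
    refine ⟨g, fun B hB => ?_, fun x => ?_, e1, fun x => ?_⟩
    · have : g ⁻¹' B = Prod.fst '' (G ∩ Prod.snd ⁻¹' B) ∪ Prod.snd '' (G ∩ Prod.fst ⁻¹' B) ∪
          B ∩ ((Prod.fst '' G)ᶜ ∩ (Prod.snd '' G)ᶜ) := by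
        ext x
        refine ⟨fun h => ?_, ?_⟩
        · rcases tri x with ⟨p, hp, rfl⟩ | ⟨p, hp, rfl⟩ | h'
          · exact Or.inl (Or.inl ⟨p, ⟨hp, by rwa [mem_preimage, ← e1 p hp]⟩, rfl⟩)
          · exact Or.inl (Or.inr ⟨p, ⟨hp, by rwa [mem_preimage, ← e2 p hp]⟩, rfl⟩)
          · exact Or.inr ⟨e3 x h'.1 h'.2 ▸ h, h'⟩
        · rintro ((⟨p, hp, rfl⟩ | ⟨p, hp, rfl⟩) | h)
          · rw [mem_preimage, e1 p hp.1]; exact hp.2
          · rw [mem_preimage, e2 p hp.1]; exact hp.2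
          · rw [mem_preimage, e3 x h.2.1 h.2.2]; exact h.1
      rw [this]
      exact (((g1.inter (measurable_snd hB)).image_of_measurable_injOn measurable_fst
        (g2.mono inter_subset_left)).union ((g1.inter (measurable_fst hB)).image_of_measurable_injOn
        measurable_snd (g3.mono inter_subset_left))).union (hB.inter
        ((g1.image_of_measurable_injOn measurable_fst g2).compl.inter
          (g1.image_of_measurable_injOn measurable_snd g3).compl))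
    · rcases tri x with ⟨p, hp, rfl⟩ | ⟨p, hp, rfl⟩ | h'
      · rw [e1 p hp, e2 p hp]
      · rw [e2 p hp, e1 p hp]
      · rw [e3 x h'.1 h'.2, e3 x h'.1 h'.2]
    · rcases tri x with ⟨p, hp, rfl⟩ | ⟨p, hp, rfl⟩ | h'
      · exact Or.inr (Or.inl (by rwa [e1 p hp]))
      · exact Or.inr (Or.inr (by rwa [e2 p hp]))
      · exact Or.inl (e3 x h'.1 h'.2)
  have : Countable 𝓑 := b1.to_subtype
  choose g g1 g2 g3 g4 using fun i : 𝓑 × 𝓑 × ℕ => invo
    (i.1.1 ∩ Prod.swap ⁻¹' i.2.1.1 ∩ {p | β p.1 i.2.2 = true ∧ β p.2 i.2.2 = false})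
    (((b2 _ i.1.2).1.inter (measurable_swap (b2 _ i.2.1.2).1)).inter (measurableSet_setOfPred.2
      ((((measurable_pi_apply _).comp (hβ.comp measurable_fst)).eq_const _).and
        (((measurable_pi_apply _).comp (hβ.comp measurable_snd)).eq_const _))))
    ((b2 _ i.1.2).2.1.mono fun p h => h.1.1)
    (fun p hp q hq e => Prod.swap_injective ((b2 _ i.2.1.2).2.1 hp.1.2 hq.1.2 e))
    (fun p hp q hq e => by
      have := hp.2.1
      rw [e, hq.2.2] at this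
      exact absurd this (by decide))
  have gE : ∀ i x, E x (g i x) := fun i x => by
    rcases g4 i x with h | h | h
    · rw [h]; exact hE.refl x
    · exact (b2 _ i.1.2).2.2 _ h.1.1
    · exact hE.symm ((b2 _ i.1.2).2.2 _ h.1.1)
  obtain ⟨e, he⟩ := exists_surjective_nat (Option (𝓑 × 𝓑 × ℕ))
  let k : ℕ → Equiv.Perm X := fun n => (e n).elim 1 fun i => (g2 i).toPerm
  have hk : ∀ n, Measurable (k n) ∧ (∀ x, E x (k n x)) ∧ (k n)⁻¹ = k n := fun n => by
    simp only [k]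
    cases e n with
    | none => exact ⟨measurable_id, hE.refl, rfl⟩
    | some i => exact ⟨g1 i, gE i, rfl⟩
  have all : ∀ w, Measurable (FreeGroup.lift k w) ∧ ∀ x, E x (FreeGroup.lift k w x) := fun w => by
    induction w using FreeGroup.induction_on with
    | C1 => rw [map_one]; exact ⟨measurable_id, hE.refl⟩
    | of n => rw [FreeGroup.lift_apply_of]; exact ⟨(hk n).1, (hk n).2.1⟩
    | inv_of n _ =>
      rw [map_inv, FreeGroup.lift_apply_of, (hk n).2.2]; exact ⟨(hk n).1, (hk n).2.1⟩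
    | mul u v hu hv =>
      rw [map_mul]
      exact ⟨hu.1.comp hv.1, fun x => hE.trans (hv.2 x) (hu.2 _)⟩
  refine ⟨FreeGroup.lift k, fun w => (all w).1, fun x y => ⟨?_, fun h => ?_⟩⟩
  · rintro ⟨w, rfl⟩
    exact (all w).2 x
  have one : ∀ x y n, E x y → β x n = true → β y n = false → ∃ m, k m x = y := by
    intro x y n h h1 h2
    obtain ⟨B, hB, hB'⟩ := b3 x y h
    obtain ⟨C, hC, hC'⟩ := b3 y x (hE.symm h)
    obtain ⟨m, hm⟩ := he (some (⟨B, hB⟩, ⟨C, hC⟩, n))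
    refine ⟨m, ?_⟩
    simp only [k, hm]
    exact g3 (⟨B, hB⟩, ⟨C, hC⟩, n) (x, y) ⟨⟨hB', hC'⟩, h1, h2⟩
  by_cases hxy : x = y
  · exact ⟨1, by simpa using hxy⟩
  obtain ⟨n, hn⟩ := Function.ne_iff.1 (hβ'.ne hxy)
  cases h1 : β x n <;> cases h2 : β y n <;> rw [h1, h2] at hn
  · exact absurd rfl hn
  · obtain ⟨m, rfl⟩ := one y x n (hE.symm h) h2 h1
    exact ⟨(FreeGroup.of m)⁻¹, by simp⟩
  · obtain ⟨m, rfl⟩ := one x y n h h1 h2
    exact ⟨FreeGroup.of m, by simp⟩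
  · exact absurd rfl hn

end Pool.Agent.MP_5045a8_al.UN
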