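import Pool.Agent.MP_5045a8_al.UN.Max
import Pool.Agent.MP_5045a8_al.UN.FM

/-! Labellings attached to an action of a countable group, and measurability. -/

namespace Pool.Agent.MP_5045a8_al.UN

open Matrix
open scoped MatrixGroups

/-- A free subgroup of infinite rank of SL(2,Z). -/
def phi : FreeGroup ℤ →* L2 := FreeGroup.lift fun i => sa ^ i * sb * (sa ^ i)⁻¹

theorem phi_inj : Function.Injective phi := by
  have e : FreeGroup.lift rho = (SpecialLinearGroup.toGL : L2 →* G2).comp phi := by
    ext i : 1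
    simp [rho, phi]
  have := rho_inj
  rw [e, MonoidHom.coe_comp] at this
  exact this.of_comp

/-- The exponent sum of the letter 0. -/
def nn : FreeGroup ℤ →* Multiplicative ℤ :=
  FreeGroup.lift fun i => if i = 0 then Multiplicative.ofAdd 1 else 1

/-- The label of level n for a sequence of bits. -/
def ell (n : ℤ) (b : ℕ → Bool) : ℤ := if n = 0 then 3 else bif b (n.toNat - 1) then 2 else 1

theorem exists_lab (Γ X : Type) [Group Γ] [Countable Γ] [MulAction Γ X] [MeasurableSpace X]
    [MeasurableSpace.CountablySeparated X] (hm : ∀ γ : Γ, Measurable fun x : X => γ • x) :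
    ∃ lab : X → Ys, Measurable lab ∧ Function.Injective lab ∧ (∀ x, Good (lab x)) ∧
      ∀ x y, (∃ γ : Γ, γ • x = y) ↔ ∃ l, sh l (lab x) = lab y := by
  classical
  obtain ⟨β, hβ, hβ'⟩ := MeasurableSpace.measurable_injection_nat_bool_of_countablySeparated X
  obtain ⟨e, he⟩ := exists_surjective_nat Γ
  let r : FreeGroup ℤ →* Γ := FreeGroup.lift fun i => if i = 0 then 1 else e (i.toNat - 1)
  let lab : X → Ys := fun x m => if m ∈ phi.range then
    ell (nn (Function.invFun phi m)).toAdd (β ((r (Function.invFun phi m))⁻¹ • x)) else 0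
  have l1 : ∀ x w, lab x (phi w) = ell (nn w).toAdd (β ((r w)⁻¹ • x)) := fun x w => by
    simp only [lab, Function.leftInverse_invFun phi_inj w]
    exact if_pos ⟨w, rfl⟩
  have l0 : ∀ x m, m ∉ phi.range → lab x m = 0 := fun x m h => if_neg h
  have l3 : ∀ x m, lab x m = 3 → ∃ w, phi w = m ∧ nn w = 1 := fun x m h => by
    by_cases hr : m ∈ phi.range
    · obtain ⟨w, rfl⟩ := hr
      refine ⟨w, rfl, by_contra fun hn => ?_⟩
      rw [l1, ell, if_neg (fun e => hn (toAdd_eq_zero.1 e))] at h
      revert h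
      cases β ((r w)⁻¹ • x) ((nn w).toAdd.toNat - 1) <;> decide
    · rw [l0 x m hr] at h
      exact absurd h (by decide)
  have lone : ∀ x, lab x 1 = 3 := fun x => by rw [← map_one phi, l1, map_one]; rfl
  have lsh : ∀ x w, nn w = 1 → sh (phi w) (lab x) = lab (r w • x) := fun x w h => by
    ext m
    by_cases hr : m ∈ phi.range
    · obtain ⟨v, rfl⟩ := hr
      rw [sh, ← map_inv, ← map_mul, l1, l1]
      simp [h, mul_smul]
    · rw [sh, l0 _ _ hr, l0]
      exact fun h' => hr (by simpa using phi.range.mul_mem ⟨w, rfl⟩ h')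
  have linj : ∀ x y, lab x = lab y → x = y := fun x y h => hβ' (funext fun k => by
    have := congrFun h (phi (FreeGroup.of 0 ^ (k + 1)))
    rw [l1, l1] at this
    simp [nn, r, ell, show (k : ℤ) + 1 ≠ 0 by omega] at this
    revert this
    cases β x k <;> cases β y k <;> decide)
  have key : ∀ x y l, sh l (lab x) = lab y → ∃ w, phi w = l ∧ r w • x = y := fun x y l h => by
    obtain ⟨w, rfl, hw⟩ := l3 y l (by rw [← h, sh, inv_mul_cancel, lone])
    exact ⟨w, rfl, linj _ _ (by rw [← h, lsh x w hw])⟩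
  refine ⟨lab, measurable_pi_lambda _ fun m => ?_, linj, fun x => ⟨fun m => ?_, fun h => ?_, ?_⟩,
    fun x y => ⟨?_, ?_⟩⟩
  · by_cases hr : m ∈ phi.range
    · obtain ⟨w, rfl⟩ := hr
      simp only [l1]
      exact (measurable_of_finite fun b : Bool =>
        if (nn w).toAdd = 0 then (3 : ℤ) else bif b then 2 else 1).comp
        ((measurable_pi_apply _).comp (hβ.comp (hm _)))
    · simp only [l0 _ _ hr]
      exact measurable_const
  · by_cases hr : m ∈ phi.range
    · obtain ⟨w, rfl⟩ := hr
      rw [l1, ell]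
      split_ifs
      · decide
      · cases β ((r w)⁻¹ • x) ((nn w).toAdd.toNat - 1) <;> decide
    · rw [l0 _ _ hr]
  · have := congrFun h 1
    rw [lone] at this
    exact absurd this (by decide)
  · intro l m hf h
    obtain ⟨w, hw, -⟩ := key x x (l⁻¹ * m * l) (by
      rw [sh_mul, sh_mul, h, ← sh_mul, inv_mul_cancel, sh_one])
    have h2 : IsOfFinOrder (phi w) := by
      rw [hw]
      simpa using MonoidHom.isOfFinOrder (MulAut.conj l⁻¹).toMonoidHom hf
    rw [phi_inj.isOfFinOrder_iff, isOfFinOrder_iff_eq_one] at h2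
    rw [h2, map_one] at hw
    rw [show m = l * (l⁻¹ * m * l) * l⁻¹ by group, ← hw, mul_one, mul_inv_cancel]
  · rintro ⟨γ, rfl⟩
    obtain ⟨k, rfl⟩ := he γ
    refine ⟨phi (FreeGroup.of ((k : ℤ) + 1)), ?_⟩
    have k0 : (k : ℤ) + 1 ≠ 0 := by omega
    rw [lsh _ _ (by simp [nn, k0])]
    simp [r, k0]
  · rintro ⟨l, h⟩
    obtain ⟨w, -, hw⟩ := key x y l h
    exact ⟨_, hw⟩

theorem meas_sh (l : L2) : Measurable (sh l) :=
  measurable_pi_lambda _ fun _ => measurable_pi_apply _

theorem meas_kap (w : F2) : ∀ (x : Q4) (a : Af), Measurable fun η : Ys => kap w (x, η) = a := by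
  induction w using FreeGroup.induction_on with
  | C1 => intro x a; simp only [kap_coc.one]; exact measurable_const
  | of b =>
    intro x a
    cases b
    · change Measurable fun η : Ys => kap gB (x, η) = a
      simp only [kap_B]
      exact (measurable_of_countable fun n : ℤ =>
        (⟨san gB, if x = 1 then ![0, n] else 0⟩ : Af) = a).comp (measurable_pi_apply 1)
    · change Measurable fun η : Ys => kap gA (x, η) = a
      simp only [kap_A]
      exact measurable_const
  | inv_of b h =>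
    intro x a
    simp only [kap_coc.inv, inv_eq_iff_eq_inv, act]
    exact (h _ a⁻¹).comp (meas_sh _)
  | mul u v hu hv =>
    intro x a
    have e : (fun η : Ys => kap (u * v) (x, η) = a) = fun η => ∃ b : Af,
        kap v (x, η) = b ∧ kap u (qq v * x, sh (vol v x) η) = a * b⁻¹ := by
      ext η
      rw [kap_coc.mul]
      simp [act, eq_mul_inv_iff_mul_eq]
    rw [e]
    exact Measurable.exists fun b => (hv x b).and ((hu _ _).comp (meas_sh _))

theorem meas_Hg : Measurable fun η : Ys => (Hg η : Set G3) := by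
  refine measurable_set_iff.2 fun g => ?_
  have e : (fun η : Ys => g ∈ (Hg η : Set G3)) = fun η => ∃ (a : Af) (w : F2),
      ((qq w = 1 ∧ ∀ m, sh (vol w 1) η m = η m) ∧ kap w (1, η) = a) ∧ emb a = g := by
    ext η
    simp only [Hg, Lg, act, SetLike.mem_coe, Subgroup.mem_map, Subgroup.mem_mk, Submonoid.mem_mk,
      Subsemigroup.mem_mk, Set.mem_ofPred_eq, Prod.mk.injEq, mul_one, funext_iff,
      exists_and_right]
  rw [e]
  exact Measurable.exists fun a => Measurable.exists fun w =>
    ((measurable_const.and (Measurable.forall fun m =>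
      ((measurable_pi_apply m).comp (meas_sh _)).eq (measurable_pi_apply m))).and
      (meas_kap w 1 a)).and measurable_const

theorem Hg_free (η : Ys) : IsFreeGroup (Hg η) := by
  let S : Subgroup F2 :=
    { carrier := {w | act w (1, η) = (1, η)}
      one_mem' := kap_coc.aone _
      mul_mem' := fun {a b} ha hb => by
        rw [Set.mem_ofPred_eq] at *
        rw [kap_coc.amul, hb, ha]
      inv_mem' := fun {a} ha => by
        have := kap_coc.ainv a⁻¹ (1, η)
        rwa [inv_inv, ha] at this }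
  let f : S →* Hg η := MonoidHom.mk'
    (fun w => ⟨emb (kap w (1, η)), _, ⟨w, w.2, rfl⟩, rfl⟩) fun a b => Subtype.ext (by
      change emb (kap (a.1 * b.1) (1, η)) = emb _ * emb _
      rw [kap_coc.mul, b.2, map_mul])
  refine IsFreeGroup.ofMulEquiv (MulEquiv.ofBijective f ⟨fun a b h => ?_, ?_⟩)
  · have := congrArg Af.A (emb_inj (congrArg Subtype.val h))
    rw [kap_lin, kap_lin] at this
    exact Subtype.ext (san_inj this)
  · rintro ⟨_, _, ⟨w, hw, rfl⟩, rfl⟩
    exact ⟨⟨w, hw⟩, rfl⟩

theorem fin_supp {B : Set G3} {x : G3} (hx : x ∈ Subgroup.closure B) :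
    ∃ S : Finset G3, (S : Set G3) ⊆ B ∧ x ∈ Subgroup.closure (S : Set G3) := by
  classical
  induction hx using Subgroup.closure_induction with
  | mem x h => exact ⟨{x}, by simpa using h, Subgroup.subset_closure (by simp)⟩
  | one => exact ⟨∅, by simp, Subgroup.one_mem _⟩
  | mul x y _ _ hx hy =>
    obtain ⟨S, h1, h2⟩ := hx
    obtain ⟨T, h3, h4⟩ := hy
    exact ⟨S ∪ T, by simp [h1, h3], Subgroup.mul_mem _ (Subgroup.closure_mono (by simp) h2)
      (Subgroup.closure_mono (by simp) h4)⟩
  | inv x _ hx =>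
    obtain ⟨S, h1, h2⟩ := hx
    exact ⟨S, h1, Subgroup.inv_mem _ h2⟩

theorem hp_closure (B : Set G3) : HP (Subgroup.closure B) ↔
    ∀ S : Finset G3, (S : Set G3) ⊆ B → HP (Subgroup.closure (S : Set G3)) := by
  classical
  refine ⟨fun h S hS => h.mono (Subgroup.closure_mono hS), fun h T ε hε => ?_⟩
  choose s hs hs' using fun x : Subgroup.closure B => fin_supp x.2
  let D := (Subgroup.closure ((T.biUnion s : Finset G3) : Set G3)).subgroupOf (Subgroup.closure B)
  have hB : ((T.biUnion s : Finset G3) : Set G3) ⊆ B := by simpa using fun x _ => hs x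
  have hD : HP D := (h _ hB).of_injective
    (Subgroup.subgroupOfEquivOfLe (Subgroup.closure_mono hB)).toMonoidHom
    (Subgroup.subgroupOfEquivOfLe (Subgroup.closure_mono hB)).injective
  have hT : ∀ x ∈ T, x ∈ D := fun x hx => Subgroup.closure_mono
    (Finset.coe_subset.2 (Finset.subset_biUnion_of_mem s hx)) (hs' x)
  obtain ⟨φ, hpd, h1, h0, hfin, hS⟩ := hD (T.subtype (· ∈ D)) ε hε
  refine ⟨ext0 D φ, hpd.ext0, by rw [ext0, dif_pos D.one_mem]; exact h1, fun g => ?_,
    fun δ hδ => ((hfin δ hδ).image Subtype.val).subset fun g hg => ?_, fun g hg => ?_⟩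
  · rw [ext0]
    split_ifs
    exacts [h0 _, le_rfl]
  · rw [Set.mem_ofPred_eq, ext0] at hg
    split_ifs at hg with hd
    · exact ⟨⟨g, hd⟩, hg, rfl⟩
    · exact absurd hg (not_le.2 hδ)
  · rw [ext0, dif_pos (hT g hg)]
    exact hS _ (Finset.mem_subtype.2 hg)

theorem meas_max :
    MeasurableSet {A : Set G3 | ∃ H : Subgroup G3, MaxHP H ∧ (H : Set G3) = A} := by
  have hs : ∀ (S : Finset G3) (g : G3), Measurable fun A : Set G3 => (S : Set G3) ⊆ insert g A :=
    fun S g => Measurable.forall fun x => measurable_const.imp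
      (measurable_const.or (measurable_set_mem x))
  have e : {A : Set G3 | ∃ H : Subgroup G3, MaxHP H ∧ (H : Set G3) = A} =
      {A | 1 ∈ A ∧ (∀ a b, a ∈ A → b ∈ A → a * b⁻¹ ∈ A) ∧ ∀ g, g ∈ A ↔ ∀ S : Finset G3,
        (S : Set G3) ⊆ insert g A → HP (Subgroup.closure (S : Set G3))} := by
    ext A
    simp only [Set.mem_ofPred_eq, ← hp_closure]
    constructor
    · rintro ⟨H, ⟨h1, h2⟩, rfl⟩
      refine ⟨H.one_mem, fun a b ha hb => H.mul_mem ha (H.inv_mem hb), fun g => ⟨fun hg => ?_,
        fun hg => by_contra fun hn => h2 _ ?_ hg⟩⟩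
      · rwa [Set.insert_eq_of_mem hg, Subgroup.closure_eq]
      · exact lt_of_le_of_ne (fun x hx => Subgroup.subset_closure (Or.inr hx)) fun e =>
          hn (show g ∈ H from e ▸ Subgroup.subset_closure (Or.inl rfl))
    · rintro ⟨h1, h2, h3⟩
      let H : Subgroup G3 := Subgroup.ofDiv A ⟨1, h1⟩ fun a ha b hb => h2 a b ha hb
      have eH : (H : Set G3) = A := rfl
      refine ⟨H, ⟨?_, fun K hK hH => ?_⟩, eH⟩
      · have := (h3 1).1 h1
        rwa [Set.insert_eq_of_mem h1, ← eH, Subgroup.closure_eq] at this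
      · obtain ⟨g, hg, hn⟩ := SetLike.exists_of_lt hK
        exact hn ((h3 g).2 (hH.mono ((Subgroup.closure_le _).2 (Set.insert_subset hg hK.le))))
  rw [e]
  exact measurableSet_setOfPred.2 ((measurable_set_mem _).and ((Measurable.forall fun a =>
    Measurable.forall fun b => (measurable_set_mem _).imp ((measurable_set_mem _).imp
      (measurable_set_mem _))).and (Measurable.forall fun g => (measurable_set_mem _).iff
        (Measurable.forall fun S => (hs S g).imp measurable_const))))

theorem Hg_inj {η η' : Ys} (hη : Good η) (hη' : Good η') (h : Hg η = Hg η') : η = η' := by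
  obtain ⟨w, -, e1, e2⟩ := star (Hg_lift η') hη hη' P0.one_mem
    (fun x hx => by simpa [h] using hx) le_rfl
  have := congrArg Af.A (emb_inj ((map_one emb).trans e1))
  rw [kap_lin, Af.one_A, eq_comm, map_eq_one_iff _ san_inj] at this
  rwa [this, vol_coc.one, sh_one] at e2

theorem universal (X : Type) [MeasurableSpace X] [StandardBorelSpace X] (E : X → X → Prop)
    (hE : Equivalence E) (hm : MeasurableSet {p : X × X | E p.1 p.2})
    (hc : ∀ x, {y | E x y}.Countable) :
    ∃ H : X → Subgroup G3, Measurable (fun x => (H x : Set G3)) ∧ Function.Injective H ∧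
      (∀ x, MaxHP (H x) ∧ IsFreeGroup (H x) ∧ IsMaxLift ![0, 0, 1] (H x)) ∧
      ∀ x y, E x y ↔ ∃ γ : G3, ∀ g, g ∈ H y ↔ γ * g * γ⁻¹ ∈ H x := by
  obtain ⟨π, h1, h2⟩ := feldman_moore hE hm hc
  let := MulAction.compHom X π
  obtain ⟨lab, l1, l2, l3, l4⟩ := exists_lab (FreeGroup ℕ) X h1
  exact ⟨fun x => Hg (lab x), meas_Hg.comp l1, fun x y h => l2 (Hg_inj (l3 x) (l3 y) h),
    fun x => ⟨Hg_max (l3 x), Hg_free _, Hg_maxLift (l3 x)⟩,
    fun x y => (h2 x y).symm.trans ((l4 x y).trans (Hg_conj (l3 x) (l3 y)))⟩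

end Pool.Agent.MP_5045a8_al.UN
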