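import Pool.Agent.MP_5045a8_al.UN.Act
import Pool.Agent.MP_5045a8_al.HX.Main

/-! The groups of the family are maximal Haagerup subgroups of SL(3,Z), and they are conjugate
exactly when the labellings are translates of each other. -/

namespace Pool.Agent.MP_5045a8_al.UN

open Matrix
open scoped MatrixGroups

/-- The matrix of an affine map. -/
def emb : Af →* G3 :=
  MonoidHom.mk' (fun a => mk3 !![a.A.1 0 0, a.A.1 0 1, a.t 0; a.A.1 1 0, a.A.1 1 1, a.t 1; 0, 0, 1]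
    (by simpa [det_fin_three] using L2det a.A)) fun a b => mat_ext (by
      rw [mat_mul, mat_mk3, mat_mk3, mat_mk3]
      simp only [Af.mul_A, Af.mul_t, L2mul, smul2, Pi.add_apply]
      simp [add_assoc])

theorem mat_emb (a : Af) :
    mat (emb a) = !![a.A.1 0 0, a.A.1 0 1, a.t 0; a.A.1 1 0, a.A.1 1 1, a.t 1; 0, 0, 1] := rfl

theorem emb_inj : Function.Injective emb := fun a b h => by
  have e : ∀ i j, mat (emb a) i j = mat (emb b) i j := fun i j => by rw [h]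
  exact Af.ext (L2ext (e 0 0) (e 0 1) (e 1 0) (e 1 1)) (ext2.2 ⟨e 0 2, e 1 2⟩)

theorem emb_P0 (a : Af) : emb a ∈ P0 := ⟨rfl, rfl⟩

theorem exists_emb {g : G3} (h : g ∈ P0) (h1 : mat g 2 2 = 1) : ∃ a, emb a = g :=
  ⟨⟨⟨!![mat g 0 0, mat g 0 1; mat g 1 0, mat g 1 1], by rw [det_fin_two_of, P0_det' h, h1]⟩,
    ![mat g 0 2, mat g 1 2]⟩, mat_ext (by
      ext i j
      fin_cases i <;> fin_cases j
      exacts [rfl, rfl, rfl, rfl, rfl, rfl, h.1.symm, h.2.symm, h1.symm])⟩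

/-- The action of a matrix on the plane. -/
def top (g : G3) (v : V2) : V2 :=
  ![mat g 0 0 * v 0 + mat g 0 1 * v 1, mat g 1 0 * v 0 + mat g 1 1 * v 1]

theorem top_mul {g h : G3} (hh : h ∈ P0) (v : V2) : top (g * h) v = top g (top h v) := by
  rw [ext2]
  simp only [top, mat_mul, mul_apply, Fin.sum_univ_three, hh.1, hh.2, cons_val_zero, cons_val_one]
  constructor <;> ring

theorem top_one (v : V2) : top 1 v = v := by
  rw [ext2]; simp [top, mat_one]

theorem top_cop {g : G3} (h : g ∈ P0) {v : V2} (hv : IsCoprime (v 0) (v 1)) :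
    IsCoprime (top g v 0) (top g v 1) := by
  obtain ⟨p, q, e⟩ := hv
  have d := P0_det h
  refine ⟨mat g 2 2 * (p * mat g 1 1 - q * mat g 1 0), mat g 2 2 * (q * mat g 0 0 - p * mat g 0 1),
    ?_⟩
  simp only [top, cons_val_zero, cons_val_one]
  linear_combination (p * v 0 + q * v 1) * d + e

theorem conj_Tv {g : G3} (h : g ∈ P0) {a : Af} {v : V2} {n : ℤ} (ha : a.A = Tv v n) :
    ∃ b : Af, emb b = g * emb a * g⁻¹ ∧ b.A = Tv (top g v) (mat g 2 2 * n) := by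
  have hP : g * emb a * g⁻¹ ∈ P0 := P0.mul_mem (P0.mul_mem h (emb_P0 a)) (P0.inv_mem h)
  have d := P0_det h
  have d' := P0_det' h
  have ei : mat g⁻¹ = adjugate (mat g) := rfl
  have ent : ∀ i j, mat (g * emb a * g⁻¹) i j = (mat g * mat (emb a) * adjugate (mat g)) i j :=
    fun i j => by rw [mat_mul, mat_mul, ei]
  obtain ⟨b, hb⟩ := exists_emb hP (by
    rw [ent, mat_emb]
    simp [mul_apply, Fin.sum_univ_three, adjugate_fin_three, h.1, h.2]
    linear_combination d)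
  refine ⟨b, hb, ?_⟩
  have e : ∀ i j, mat (emb b) i j = (mat g * mat (emb a) * adjugate (mat g)) i j := fun i j => by
    rw [hb, ent]
  have e0 := e 0 0
  have e1 := e 0 1
  have e2 := e 1 0
  have e3 := e 1 1
  rw [mat_emb, mat_emb, ha] at e0 e1 e2 e3
  simp [mul_apply, Fin.sum_univ_three, adjugate_fin_three, h.1, h.2, Tv00, Tv01, Tv10, Tv11]
    at e0 e1 e2 e3
  apply L2ext <;> simp only [Tv00, Tv01, Tv10, Tv11, top, cons_val_zero, cons_val_one]
  · linear_combination e0 + d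
  · linear_combination e1
  · linear_combination e2
  · linear_combination e3 + d

/-- The subgroup of SL(3,Z) attached to a labelling. -/
def Hg (η : Ys) : Subgroup G3 := (Lg η).map emb

theorem lift_Af {K : Subgroup G3} (hK : IsPlaneLift ![0, 0, 1] K) (a : Af) (ha : a ∈ K.comap emb)
    (h : a.A = 1) : a = 1 :=
  emb_inj (by
    rw [map_one]
    refine hK.2 _ ha fun x hx => ?_
    change mat (emb a) *ᵥ x = x
    rw [dot3] at hx
    simp at hx
    rw [mat_emb, h]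
    simp only [ext3, mulVec, dot3]
    simp [hx])

theorem Hg_lift (η : Ys) : IsPlaneLift ![0, 0, 1] (Hg η) := by
  refine ⟨P0_stab fun _ ⟨a, _, e⟩ => e ▸ emb_P0 a, ?_⟩
  rintro _ ⟨a, ha, rfl⟩ h
  have a0 := h ![1, 0, 0] (by simp)
  have a1 := h ![0, 1, 0] (by simp)
  change mat (emb a) *ᵥ _ = _ at a0 a1
  rw [mat_emb] at a0 a1
  simp [ext3] at a0 a1
  rw [Lg_lift η ha (L2ext a0.1 a1.1 a0.2 a1.2), map_one]

theorem mem_of_cg {K : Subgroup G3} (hK : IsPlaneLift ![0, 0, 1] K) {η : Ys} (hη : Good η)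
    (h : Hg η ≤ K) {a : Af} (ha : emb a ∈ K) (hc : Cg4 a.A) : a ∈ Lg η := by
  obtain ⟨w, hw, e⟩ := exists_word hc
  have hle : Lg η ≤ K.comap emb := Subgroup.map_le_iff_le_comap.1 h
  obtain ⟨e1, e2⟩ := joint (lift_Af hK) hw (Or.inl e.symm) hη hη (g := a) (fun b hb =>
    Subgroup.mul_mem _ (Subgroup.mul_mem _ ha (hle hb)) (Subgroup.inv_mem _ ha)) hle
  exact ⟨w, by rw [act_base hw, e2], e1.symm⟩

theorem col_dvd {K : Subgroup G3} (hK : IsPlaneLift ![0, 0, 1] K) {η η' : Ys} (hη : Good η)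
    (hη' : Good η') {g : G3} (hg : g ∈ P0) (h1 : ∀ x ∈ Hg η, g * x * g⁻¹ ∈ K) (h2 : Hg η' ≤ K)
    {v : V2} (hv : IsCoprime (v 0) (v 1)) : colv (top g v) ∣ colv v := by
  obtain ⟨a, ha, e⟩ := ((width hη hv).2 _).2 dvd_rfl
  obtain ⟨b, hb, e'⟩ := conj_Tv hg e
  rw [mul_left_comm] at e'
  have hm := mem_of_cg hK hη' h2 (a := b) (hb ▸ h1 _ ⟨a, ha, rfl⟩) (by
    have z : (4 : ZMod 4) = 0 := rfl
    simp [Cg4, e', Tv00, Tv01, Tv10, Tv11, z])
  have := ((width hη' (top_cop hg hv)).2 _).1 ⟨b, hm, e'⟩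
  rcases Int.eq_one_or_neg_one_of_mul_eq_one' (P0_det hg) with d | d <;> rw [d.2] at this
  · exact_mod_cast (by simpa using this : (colv (top g v) : ℤ) ∣ colv v)
  · exact_mod_cast (by simpa using this : (colv (top g v) : ℤ) ∣ colv v)

theorem row_P0 {g : G3} (hg : g ∈ P0) : ![0, 0, 1] ᵥ* mat g = mat g 2 2 • ![0, 0, 1] := by
  simp only [ext3, vecMul, dot3]; simp [hg.1, hg.2]

theorem star {K : Subgroup G3} (hK : IsPlaneLift ![0, 0, 1] K) {η η' : Ys} (hη : Good η)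
    (hη' : Good η') {g : G3} (hg : g ∈ P0) (h1 : ∀ x ∈ Hg η, g * x * g⁻¹ ∈ K) (h2 : Hg η' ≤ K) :
    ∃ w, qq w = 1 ∧ g = emb (kap w (1, η)) ∧ sh (vol w 1) η = η' := by
  have d := Int.eq_one_or_neg_one_of_mul_eq_one' (P0_det hg)
  have hK' : IsPlaneLift ![0, 0, 1] (cj g K) := by
    have := HX.cj_Fin hK g
    rwa [row_P0 hg, HX.scale_Fin (by omega)] at this
  have hc : ∀ v : V2, IsCoprime (v 0) (v 1) → colv (top g v) = colv v := fun v hv => by
    refine Nat.dvd_antisymm (col_dvd hK hη hη' hg h1 h2 hv) ?_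
    have := col_dvd hK' hη' hη (P0.inv_mem hg) (fun x hx => by
      rw [mem_cj]; simpa [mul_assoc] using h2 hx) (fun x hx => h1 x hx) (top_cop hg hv)
    rwa [← top_mul hg, inv_mul_cancel, top_one] at this
  have c1 := hc ![1, 0] isCoprime_one_left
  have c2 := hc ![0, 1] isCoprime_one_right
  have c3 := hc ![1, 1] isCoprime_one_left
  have c4 := hc ![2, 1] isCoprime_one_right
  simp only [colv, top, cons_val_zero, cons_val_one] at c1 c2 c3 c4
  push_cast at c1 c2 c3 c4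
  simp only [mul_one, mul_zero, add_zero, zero_add, mul_two] at c1 c2 c3 c4
  have dz : ((mat g 0 0 : ZMod 4) * mat g 1 1 - mat g 0 1 * mat g 1 0) = mat g 2 2 := by
    exact_mod_cast congrArg (Int.cast : ℤ → ZMod 4) (P0_det' hg)
  obtain ⟨r1, r2, r3⟩ := col_rigid _ _ _ _ c1 c2 c3 c4 (by
    rw [dz]; rcases d with d | d <;> simp [d.2])
  have d1 : mat g 2 2 = 1 := by
    rcases d with d | d
    · exact d.2
    · rw [d.2, r1, r2] at dz
      rcases r3 with r | r <;> rw [r.1, r.2] at dz <;> exact absurd dz (by decide)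
  obtain ⟨a, rfl⟩ := exists_emb hg d1
  have hle : Lg η' ≤ K.comap emb := Subgroup.map_le_iff_le_comap.1 h2
  have h1' : ∀ b ∈ Lg η, a * b * a⁻¹ ∈ K.comap emb := fun b hb => by
    have := h1 _ ⟨b, hb, rfl⟩
    rwa [← map_inv, ← map_mul, ← map_mul] at this
  rcases r3 with r | r
  · obtain ⟨w, hw, e⟩ := exists_word (A := a.A) ⟨r.1, r1, r2, r.2⟩
    obtain ⟨e1, e2⟩ := joint (lift_Af hK) hw (Or.inl e.symm) hη hη' h1' hle
    exact ⟨w, hw, congrArg emb e1, e2⟩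
  · have n : ∀ i j, (-a.A).1 i j = -a.A.1 i j := fun i j => rfl
    have r1' : ((a.A.1 0 1 : ℤ) : ZMod 4) = 0 := r1
    have r2' : ((a.A.1 1 0 : ℤ) : ZMod 4) = 0 := r2
    have r3' : ((a.A.1 0 0 : ℤ) : ZMod 4) = -1 := r.1
    have r4' : ((a.A.1 1 1 : ℤ) : ZMod 4) = -1 := r.2
    obtain ⟨w, hw, e⟩ := exists_word (A := -a.A) (by
      simp only [Cg4, n, Int.cast_neg, r1', r2', r3', r4', neg_neg, neg_zero, and_self])
    obtain ⟨e1, e2⟩ := joint (lift_Af hK) hw (Or.inr (by rw [e, neg_neg])) hη hη' h1' hle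
    exact ⟨w, hw, congrArg emb e1, e2⟩

theorem Hg_maxLift {η : Ys} (hη : Good η) : IsMaxLift ![0, 0, 1] (Hg η) := by
  refine ⟨by simp, Hg_lift η, fun K hK hle => le_antisymm (fun g hg => ?_) hle⟩
  obtain ⟨w, hw, e1, e2⟩ := star hK hη hη (Stab.le_P0 one_ne_zero hK.1 hg)
    (fun x hx => K.mul_mem (K.mul_mem hg (hle hx)) (K.inv_mem hg)) hle
  exact ⟨_, ⟨w, by rw [act_base hw, e2], rfl⟩, e1.symm⟩

theorem Hg_max {η : Ys} (hη : Good η) : MaxHP (Hg η) := by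
  obtain ⟨hf, hl, hm⟩ := Hg_maxLift hη
  refine HX.thU3 _ _ hf (HX.par_of_unip hf hl fun x hx hfx => ?_) hl hm
  have x2 : x 2 = 0 := by rw [dot3] at hfx; simpa using hfx
  have hpos : 0 < Int.gcd (x 0) (x 1) := Int.gcd_pos_iff.2 (by
    by_contra hn
    push Not at hn
    exact hx (ext3.2 ⟨hn.1, hn.2, x2⟩))
  obtain ⟨m, p, q, -, hpq, e0, e1⟩ := Int.exists_gcd_one' hpos
  have hv : IsCoprime ((![p, q] : V2) 0) ((![p, q] : V2) 1) := Int.isCoprime_iff_gcd_eq_one.2 hpq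
  obtain ⟨hp, hw⟩ := width hη hv
  obtain ⟨a, ha, e⟩ := (hw _).2 dvd_rfl
  refine ⟨emb a, ⟨a, ha, rfl⟩, ?_, ?_, fun h => ?_⟩
  · rw [mat_emb, e, one_fin_three, pow_three]
    ext i j
    fin_cases i <;> fin_cases j <;>
      simp [mul_apply, Fin.sum_univ_three, Tv00, Tv01, Tv10, Tv11] <;> ring
  · rw [mat_emb, e]
    simp only [ext3, mulVec, dot3]
    simp [Tv00, Tv01, Tv10, Tv11, x2, e0, e1]
    constructor <;> ring
  · rw [map_eq_one_iff _ emb_inj] at h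
    rw [h] at e
    have b1 : (0 : ℤ) = 4 * (colv ![p, q] : ℤ) * p ^ 2 := congrArg (fun A : L2 => A.1 0 1) e
    have b2 : (0 : ℤ) = -(4 * (colv ![p, q] : ℤ) * q ^ 2) := congrArg (fun A : L2 => A.1 1 0) e
    have hp' : 4 * (colv ![p, q] : ℤ) ≠ 0 := by omega
    rw [eq_comm, mul_eq_zero, pow_eq_zero_iff two_ne_zero] at b1
    rw [eq_comm, neg_eq_zero, mul_eq_zero, pow_eq_zero_iff two_ne_zero] at b2
    rw [b1.resolve_left hp', b2.resolve_left hp'] at hpq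
    simp at hpq

theorem Hg_conj {η η' : Ys} (hη : Good η) (hη' : Good η') :
    (∃ l, sh l η = η') ↔ ∃ c : G3, ∀ g, g ∈ Hg η' ↔ c * g * c⁻¹ ∈ Hg η := by
  constructor
  · rintro ⟨l, rfl⟩
    obtain ⟨f, hf, rfl⟩ := exists_flat l
    have hi := Fl.inv_mem hf
    refine ⟨(emb (kap f (1, η)))⁻¹, fun g => ⟨?_, ?_⟩⟩
    · rintro ⟨a, ha, rfl⟩
      have := Lg_conj hi.1 _ ha
      rw [← sh_mul, vol_inv1 hf.1, inv_mul_cancel, sh_one, kap_coc.inv, act_base hi.1, ← sh_mul,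
        vol_inv1 hf.1, inv_mul_cancel, sh_one] at this
      exact ⟨_, this, by simp⟩
    · rintro ⟨a, ha, e⟩
      exact ⟨_, Lg_conj hf.1 _ ha, by simp [e, mul_assoc]⟩
  · rintro ⟨c, hc⟩
    have e : Hg η' = cj c (Hg η) := Subgroup.ext hc
    have hs : Stab (Hg η') (![0, 0, 1] ᵥ* mat c) := e ▸ Stab.cj (Hg_lift η).1 c
    have row : ![0, 0, 1] ᵥ* mat c = ![mat c 2 0, mat c 2 1, mat c 2 2] := by
      simp only [ext3, vecMul, dot3]; simp
    rw [row] at hs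
    have hP : c ∈ P0 := by
      obtain ⟨p1, w1⟩ := width hη' (v := ![1, 0]) isCoprime_one_left
      obtain ⟨p2, w2⟩ := width hη' (v := ![0, 1]) isCoprime_one_right
      obtain ⟨a, ha, ea⟩ := (w1 _).2 dvd_rfl
      obtain ⟨b, hb, eb⟩ := (w2 _).2 dvd_rfl
      have s1 := hs _ ⟨a, ha, rfl⟩
      have s2 := hs _ ⟨b, hb, rfl⟩
      rw [mat_emb, ea] at s1
      rw [mat_emb, eb] at s2
      simp only [ext3, vecMul, dot3] at s1 s2
      simp [Tv00, Tv01, Tv10, Tv11, p1.ne', p2.ne'] at s1 s2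
      exact ⟨by omega, by omega⟩
    obtain ⟨w, hw, -, e2⟩ := star (Hg_lift η) hη' hη hP (fun x hx => (hc x).1 hx) le_rfl
    exact ⟨(vol w 1)⁻¹, by rw [← e2, ← sh_mul, inv_mul_cancel, sh_one]⟩

end Pool.Agent.MP_5045a8_al.UN
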