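import Mathlib

/-! The Sanov subgroup of SL(2,Z) and the principal congruence subgroup of level 4. -/

namespace Pool.Agent.MP_5045a8_al.UN

open Matrix
open scoped MatrixGroups

/-- SL(2,Z). -/
abbrev L2 : Type := SL(2, ℤ)

/-- Integer vectors in the plane. -/
abbrev V2 : Type := Fin 2 → ℤ

/-- The free group on two letters. -/
abbrev F2 : Type := FreeGroup Bool

/-- The exponent sums modulo 2. -/
abbrev Q4 : Type := Multiplicative (ZMod 2 × ZMod 2)

theorem ext2 {R : Type} {a b : Fin 2 → R} : a = b ↔ a 0 = b 0 ∧ a 1 = b 1 :=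
  ⟨fun h => h ▸ ⟨rfl, rfl⟩, fun h => funext fun i => by fin_cases i <;> simp [h.1, h.2]⟩

theorem mv2 (A : L2) (v : V2) :
    A.1 *ᵥ v = ![A.1 0 0 * v 0 + A.1 0 1 * v 1, A.1 1 0 * v 0 + A.1 1 1 * v 1] := by
  rw [ext2]; simp [mulVec, dotProduct, Fin.sum_univ_two]

theorem L2ext {A B : L2} (h0 : A.1 0 0 = B.1 0 0) (h1 : A.1 0 1 = B.1 0 1)
    (h2 : A.1 1 0 = B.1 1 0) (h3 : A.1 1 1 = B.1 1 1) : A = B :=
  Subtype.ext (Matrix.ext fun i j => by fin_cases i <;> fin_cases j <;> assumption)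

theorem L2det (A : L2) : A.1 0 0 * A.1 1 1 - A.1 0 1 * A.1 1 0 = 1 := by
  rw [← det_fin_two]; exact A.2

theorem L2mul (A B : L2) (i j : Fin 2) :
    (A * B).1 i j = A.1 i 0 * B.1 0 j + A.1 i 1 * B.1 1 j := by
  change (A.1 * B.1) i j = _
  simp [mul_apply, Fin.sum_univ_two]

/-- The n-th power of the transvection along v. -/
def Tv (v : V2) (n : ℤ) : L2 :=
  ⟨!![1 - n * v 0 * v 1, n * v 0 ^ 2; -(n * v 1 ^ 2), 1 + n * v 0 * v 1], by
    rw [det_fin_two_of]; ring⟩

theorem Tv00 (v : V2) (n : ℤ) : (Tv v n).1 0 0 = 1 - n * v 0 * v 1 := rfl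
theorem Tv01 (v : V2) (n : ℤ) : (Tv v n).1 0 1 = n * v 0 ^ 2 := rfl
theorem Tv10 (v : V2) (n : ℤ) : (Tv v n).1 1 0 = -(n * v 1 ^ 2) := rfl
theorem Tv11 (v : V2) (n : ℤ) : (Tv v n).1 1 1 = 1 + n * v 0 * v 1 := rfl

theorem Tv_add (v : V2) (m n : ℤ) : Tv v (m + n) = Tv v m * Tv v n := by
  apply L2ext <;> simp only [L2mul, Tv00, Tv01, Tv10, Tv11] <;> ring

theorem Tv_zero (v : V2) : Tv v 0 = 1 := by
  apply L2ext <;> simp [Tv00, Tv01, Tv10, Tv11]

theorem Tv_zpow (v : V2) (m n : ℤ) : Tv v m ^ n = Tv v (m * n) := by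
  let f : Multiplicative ℤ →* L2 :=
    { toFun := fun k => Tv v k.toAdd, map_one' := Tv_zero v, map_mul' := fun a b => Tv_add v _ _ }
  have := (map_zpow f (Multiplicative.ofAdd m) n).symm
  simpa [f, mul_comm] using this

theorem Tv_conj (A : L2) (v : V2) (n : ℤ) : A * Tv v n * A⁻¹ = Tv (A.1 *ᵥ v) n := by
  rw [mul_inv_eq_iff_eq_mul]
  have h := L2det A
  apply L2ext <;> simp only [L2mul, Tv00, Tv01, Tv10, Tv11, mv2, cons_val_zero, cons_val_one]
  · linear_combination (n * v 1 * (A.1 0 0 * v 0 + A.1 0 1 * v 1)) * h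
  · linear_combination (-n * v 0 * (A.1 0 0 * v 0 + A.1 0 1 * v 1)) * h
  · linear_combination (n * v 1 * (A.1 1 0 * v 0 + A.1 1 1 * v 1)) * h
  · linear_combination (-n * v 0 * (A.1 1 0 * v 0 + A.1 1 1 * v 1)) * h

theorem Tv_neg (v : V2) (n : ℤ) : Tv (-v) n = Tv v n := by
  apply L2ext <;> simp [Tv00, Tv01, Tv10, Tv11]

/-- The first letter. -/
def gA : F2 := FreeGroup.of true

/-- The second letter. -/
def gB : F2 := FreeGroup.of false

/-- The Sanov representation. -/
def san : F2 →* L2 := FreeGroup.lift fun b => bif b then Tv ![1, 0] 2 else Tv ![0, 1] (-2)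

theorem san_A : san gA = Tv ![1, 0] 2 := by simp [san, gA]
theorem san_B : san gB = Tv ![0, 1] (-2) := by simp [san, gB]

theorem san_inj : Function.Injective san := by
  let T : Bool → L2 := fun b => bif b then Tv ![1, 0] 2 else Tv ![0, 1] (-2)
  let X : Bool → Set V2 := fun b => bif b then {z | |z 1| < |z 0|} else {z | |z 0| < |z 1|}
  have key : ∀ x y n : ℤ, n ≠ 0 → |x| < |y| → |y| < |x + 2 * n * y| := by
    intro x y n hn h
    have h1 : |2 * n * y| ≤ |x + 2 * n * y| + |x| := by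
      have := abs_sub (x + 2 * n * y) x
      rwa [add_sub_cancel_left] at this
    have h2 : 1 ≤ |n| := Int.one_le_abs hn
    rw [abs_mul, abs_mul, abs_two] at h1
    nlinarith [abs_nonneg y]
  have hpp : ∀ i j, i ≠ j → ∀ n : ℤ, n ≠ 0 → ∀ x ∈ X j, T i ^ n • x ∈ X i := by
    intro i j hij n hn x hx
    change (T i ^ n).1 *ᵥ x ∈ X i
    cases i <;> cases j <;> simp only [ne_eq, not_true_eq_false] at hij
    · have := key (x 1) (x 0) n hn hx
      simp only [T, X, cond_false, Tv_zpow, mv2, Tv00, Tv01, Tv10, Tv11, Set.mem_ofPred_eq]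
      simp
      convert this using 2
      ring
    · have := key (x 0) (x 1) n hn hx
      simp only [T, X, cond_true, Tv_zpow, mv2, Tv00, Tv01, Tv10, Tv11, Set.mem_ofPred_eq]
      simpa using this
  have : san = (Monoid.CoprodI.lift fun i => FreeGroup.lift fun _ : Unit => T i).comp
        (@freeGroupEquivCoprodI Bool).toMonoidHom := by
    ext i : 1
    simp [san, T]
  rw [this, MonoidHom.coe_comp]
  refine Function.Injective.comp ?_ (MulEquiv.injective freeGroupEquivCoprodI)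
  refine Monoid.CoprodI.lift_injective_of_ping_pong (H := fun _ : Bool => FreeGroup Unit)
    (fun i => FreeGroup.lift fun _ : Unit => T i) (Or.inr ⟨true, ?_⟩) X (fun i => ?_)
    (fun i j hij => ?_) fun i j hij => ?_
  · rw [Cardinal.mk_congr FreeGroup.freeGroupUnitEquivInt, Cardinal.mk_int]
    exact (Cardinal.natCast_lt_aleph0 (n := 3)).le
  · cases i
    · exact ⟨![0, 1], by simp [X]⟩
    · exact ⟨![1, 0], by simp [X]⟩
  · refine Set.disjoint_left.2 fun z h1 h2 => ?_
    cases i <;> cases j <;> simp only [ne_eq, not_true_eq_false] at hij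
    · exact lt_asymm (show |z 0| < |z 1| from h1) h2
    · exact lt_asymm (show |z 1| < |z 0| from h1) h2
  · refine FreeGroup.freeGroupUnitEquivInt.forall_congr_left.mpr ?_
    intro n hne1
    have hn : n ≠ 0 := by
      rintro rfl
      apply hne1
      simp [FreeGroup.freeGroupUnitEquivInt]
    rintro _ ⟨x, hx, rfl⟩
    have := hpp i j hij n hn x hx
    change FreeGroup.lift (fun _ => T i) (FreeGroup.of () ^ n) • x ∈ X i
    simpa only [map_zpow, FreeGroup.lift_apply_of] using this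

/-- Representatives of the three cusps. -/
def base : Fin 3 → V2 := ![![1, 0], ![0, 1], ![1, 1]]

theorem descent (v : V2) (h : IsCoprime (v 0) (v 1)) :
    ∃ (w : F2) (j : Fin 3), v = (san w).1 *ᵥ base j ∨ -v = (san w).1 *ᵥ base j := by
  have step : ∀ (v : V2) (g : F2), (∃ (w : F2) (j : Fin 3), (san g).1 *ᵥ v = (san w).1 *ᵥ base j ∨
      -((san g).1 *ᵥ v) = (san w).1 *ᵥ base j) →
      ∃ (w : F2) (j : Fin 3), v = (san w).1 *ᵥ base j ∨ -v = (san w).1 *ᵥ base j := by
    rintro v g ⟨w, j, h⟩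
    have e : ∀ u : V2, (san g).1 *ᵥ u = (san w).1 *ᵥ base j → u = (san (g⁻¹ * w)).1 *ᵥ base j :=
      fun u hu => by
        have e1 : (san (g⁻¹ * w)).1 = (san g⁻¹).1 * (san w).1 := by rw [map_mul]; rfl
        have e2 : (san g⁻¹).1 * (san g).1 = 1 := by
          have : san g⁻¹ * san g = 1 := by rw [← map_mul, inv_mul_cancel, map_one]
          exact congrArg Subtype.val this
        rw [e1, ← mulVec_mulVec, ← hu, mulVec_mulVec, e2, one_mulVec]
    exact ⟨g⁻¹ * w, j, h.imp (e v) fun h => e (-v) (by rw [mulVec_neg, h])⟩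
  have eA : ∀ (v : V2) (n : ℤ), (san (gA ^ n)).1 *ᵥ v = ![v 0 + 2 * n * v 1, v 1] := fun v n => by
    rw [map_zpow, san_A, Tv_zpow, mv2]; simp [Tv00, Tv01, Tv10, Tv11]
  have eB : ∀ (v : V2) (n : ℤ), (san (gB ^ n)).1 *ᵥ v = ![v 0, v 1 + 2 * n * v 0] := fun v n => by
    rw [map_zpow, san_B, Tv_zpow, mv2]; simp [Tv00, Tv01, Tv10, Tv11, add_comm]
  induction hn : (v 0).natAbs + (v 1).natAbs using Nat.strong_induction_on generalizing v with
  | _ n ih =>
    have cA : ∀ k : ℤ, IsCoprime (v 0 + 2 * k * v 1) (v 1) := fun k => h.add_mul_right_left _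
    have cB : ∀ k : ℤ, IsCoprime (v 0) (v 1 + 2 * k * v 0) := fun k => h.add_mul_right_right _
    have one : ∀ j, (san 1).1 *ᵥ base j = base j := fun j => by rw [map_one]; exact one_mulVec _
    by_cases h0 : v 1 = 0
    · rw [h0, isCoprime_zero_right, Int.isUnit_iff] at h
      refine ⟨1, 0, ?_⟩
      rw [one, ext2, ext2]
      rcases h with h | h <;> simp [base, h, h0]
    by_cases h1 : v 0 = 0
    · rw [h1, isCoprime_zero_left, Int.isUnit_iff] at h
      refine ⟨1, 1, ?_⟩
      rw [one, ext2, ext2]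
      rcases h with h | h <;> simp [base, h, h1]
    rcases lt_trichotomy (v 0).natAbs (v 1).natAbs with hl | hl | hl
    · by_cases hs : 0 < v 0 ↔ 0 < v 1
      · refine step v (gB ^ (-1 : ℤ)) (ih _ ?_ _ (by rw [eB]; exact cB _) rfl)
        rw [eB]; simp only [cons_val_zero, cons_val_one]; omega
      · refine step v (gB ^ (1 : ℤ)) (ih _ ?_ _ (by rw [eB]; exact cB _) rfl)
        rw [eB]; simp only [cons_val_zero, cons_val_one]; omega
    · have hu : IsUnit (v 1) := by
        rcases Int.natAbs_eq_natAbs_iff.1 hl with e | e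
        · rwa [e, isCoprime_self] at h
        · rwa [e, IsCoprime.neg_left_iff, isCoprime_self] at h
      rw [Int.isUnit_iff] at hu
      by_cases hs : v 0 = v 1
      · refine ⟨1, 2, ?_⟩
        rw [one, ext2, ext2]
        rcases hu with h | h <;> simp [base, h, hs]
      · refine step v (gA ^ (1 : ℤ)) ⟨1, 2, ?_⟩
        rw [one, eA, ext2, ext2]
        simp [base]
        omega
    · by_cases hs : 0 < v 0 ↔ 0 < v 1
      · refine step v (gA ^ (-1 : ℤ)) (ih _ ?_ _ (by rw [eA]; exact cA _) rfl)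
        rw [eA]; simp only [cons_val_zero, cons_val_one]; omega
      · refine step v (gA ^ (1 : ℤ)) (ih _ ?_ _ (by rw [eA]; exact cA _) rfl)
        rw [eA]; simp only [cons_val_zero, cons_val_one]; omega

/-- The exponent sums of a word modulo 2. -/
def qq : F2 →* Q4 :=
  FreeGroup.lift fun b => bif b then Multiplicative.ofAdd (1, 0) else Multiplicative.ofAdd (0, 1)

theorem qq_A : qq gA = Multiplicative.ofAdd (1, 0) := by simp [qq, gA]
theorem qq_B : qq gB = Multiplicative.ofAdd (0, 1) := by simp [qq, gB]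

/-- Twice a residue modulo 2, as a residue modulo 4. -/
def tw (a : ZMod 2) : ZMod 4 := if a = 0 then 0 else 2

theorem san_mod (w : F2) : ((san w).1 0 0 : ZMod 4) = 1 ∧
    ((san w).1 0 1 : ZMod 4) = tw (qq w).toAdd.1 ∧
    ((san w).1 1 0 : ZMod 4) = tw (qq w).toAdd.2 ∧ ((san w).1 1 1 : ZMod 4) = 1 := by
  have mul : ∀ x y : F2, (((san x).1 0 0 : ZMod 4) = 1 ∧
      ((san x).1 0 1 : ZMod 4) = tw (qq x).toAdd.1 ∧
      ((san x).1 1 0 : ZMod 4) = tw (qq x).toAdd.2 ∧ ((san x).1 1 1 : ZMod 4) = 1) →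
      (((san y).1 0 0 : ZMod 4) = 1 ∧ ((san y).1 0 1 : ZMod 4) = tw (qq y).toAdd.1 ∧
      ((san y).1 1 0 : ZMod 4) = tw (qq y).toAdd.2 ∧ ((san y).1 1 1 : ZMod 4) = 1) →
      ((san (x * y)).1 0 0 : ZMod 4) = 1 ∧
      ((san (x * y)).1 0 1 : ZMod 4) = tw (qq (x * y)).toAdd.1 ∧
      ((san (x * y)).1 1 0 : ZMod 4) = tw (qq (x * y)).toAdd.2 ∧
      ((san (x * y)).1 1 1 : ZMod 4) = 1 := by
    rintro x y ⟨a1, a2, a3, a4⟩ ⟨b1, b2, b3, b4⟩
    simp only [map_mul, L2mul, Int.cast_add, Int.cast_mul, a1, a2, a3, a4, b1, b2, b3, b4,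
      toAdd_mul, Prod.fst_add, Prod.snd_add]
    generalize (qq x).toAdd.1 = a
    generalize (qq x).toAdd.2 = b
    generalize (qq y).toAdd.1 = c
    generalize (qq y).toAdd.2 = d
    revert a b c d
    decide
  induction w using FreeGroup.induction_on with
  | C1 => simp [tw]
  | of b =>
    cases b
    · change _ ∧ _ = tw (qq gB).toAdd.1 ∧ _ = tw (qq gB).toAdd.2 ∧ _
      rw [qq_B, show FreeGroup.of false = gB from rfl, san_B]
      decide
    · change _ ∧ _ = tw (qq gA).toAdd.1 ∧ _ = tw (qq gA).toAdd.2 ∧ _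
      rw [qq_A, show FreeGroup.of true = gA from rfl, san_A]
      decide
  | inv_of b _ =>
    cases b
    · rw [map_inv, map_inv, show FreeGroup.of false = gB from rfl, san_B, qq_B,
        ← _root_.zpow_neg_one, Tv_zpow]
      decide
    · rw [map_inv, map_inv, show FreeGroup.of true = gA from rfl, san_A, qq_A,
        ← _root_.zpow_neg_one, Tv_zpow]
      decide
  | mul x y hx hy => exact mul x y hx hy

/-- Congruent to the identity modulo 4. -/
def Cg4 (A : L2) : Prop :=
  (A.1 0 0 : ZMod 4) = 1 ∧ (A.1 0 1 : ZMod 4) = 0 ∧ (A.1 1 0 : ZMod 4) = 0 ∧ (A.1 1 1 : ZMod 4) = 1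

theorem exists_word {A : L2} (h : Cg4 A) : ∃ w, qq w = 1 ∧ san w = A := by
  obtain ⟨h0, h1, h2, h3⟩ := h
  have hc : IsCoprime (A.1 0 0) (A.1 1 0) := ⟨A.1 1 1, -A.1 0 1, by linear_combination L2det A⟩
  obtain ⟨w, j, hw⟩ := descent ![A.1 0 0, A.1 1 0] hc
  obtain ⟨m0, m1, m2, m3⟩ := san_mod w
  have hj : A.1 0 0 = (san w).1 0 0 ∧ A.1 1 0 = (san w).1 1 0 := by
    rw [mv2, ext2, ext2] at hw
    have c := fun {x y : ℤ} (e : x = y) => congrArg (Int.cast : ℤ → ZMod 4) e
    generalize (qq w).toAdd.1 = a at m1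
    generalize (qq w).toAdd.2 = b at m2
    fin_cases j <;> simp [base] at hw
    · rcases hw with hw | hw
      · exact hw
      · have := c hw.1
        rw [Int.cast_neg, h0, m0] at this
        exact absurd this (by decide)
    · exfalso
      rcases hw with hw | hw <;> have := c hw.2
      · rw [h2, m3] at this; exact absurd this (by decide)
      · rw [Int.cast_neg, h2, m3] at this; exact absurd this (by decide)
    · exfalso
      rcases hw with hw | hw <;> have := c hw.2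
      · rw [h2, Int.cast_add, m2, m3] at this; clear m2; revert b; decide
      · rw [Int.cast_neg, h2, Int.cast_add, m2, m3] at this; clear m2; revert b; decide
  have d1 := L2det A
  have d2 := L2det (san w)
  set m := (san w).1 1 1 * A.1 0 1 - (san w).1 0 1 * A.1 1 1 with hm
  have hm2 : (2 : ℤ) ∣ m := by
    have e : ((2 * m : ℤ) : ZMod 4) = 0 := by
      rw [hm]; push_cast; rw [h1, h3, m1, m3]
      generalize (qq w).toAdd.1 = a
      revert a; decide
    have := (ZMod.intCast_zmod_eq_zero_iff_dvd _ 4).1 e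
    omega
  obtain ⟨k, hk⟩ := hm2
  have e : san (w * gA ^ k) = A := by
    rw [map_mul, map_zpow, san_A, Tv_zpow]
    apply L2ext <;> simp only [L2mul, Tv00, Tv01, Tv10, Tv11] <;> simp [← hk, hm]
    · exact hj.1.symm
    · rw [← hj.1, ← hj.2] at *
      linear_combination (A.1 0 1) * d2 - ((san w).1 0 1) * d1
    · exact hj.2.symm
    · rw [← hj.1, ← hj.2] at *
      linear_combination (A.1 1 1) * d2 - ((san w).1 1 1) * d1
  refine ⟨_, ?_, e⟩
  obtain ⟨-, n1, n2, -⟩ := san_mod (w * gA ^ k)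
  rw [e, h1] at n1
  rw [e, h2] at n2
  generalize qq (w * gA ^ k) = x at n1 n2
  revert x
  decide

end Pool.Agent.MP_5045a8_al.UN
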